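import Pool.Agent.H69.Mt.UniF

/-!
# The normal form: one query to the complement of one cut
-/

set_option autoImplicit false

namespace Pool.Agent.H69.Mt

open Pool.Agent.H69.Sp

/-- the wrapper with a larger universe -/
theorem wrapT {P : ℕ → (ℕ → List ℕ → Prop) → ℕ → Prop} (hP : ED (fun N E v => P N E (v 1)))
    {T : Set ℕ} (h0 : 0 ∉ T) (s : ℕ)
    (hT : ∀ m, 2 ≤ m → (m ∈ T ↔ ∃ E, P ((m ^ 2 ^ s) ^ 8) E m)) : IsSpectrum T := by
  have hinj : ∀ a b : ℕ, a ^ 2 ^ s = b ^ 2 ^ s → a = b := fun a b hab =>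
    Nat.pow_left_injective (Nat.two_pow_pos s).ne' hab
  have h1 : IsSpectrum {M | ∃ m, m ^ 2 ^ s = M ∧ m ∈ T} := by
    refine wrap (P := fun N E v => ∃ m, m < N ∧ (m ^ 2 ^ s = v 0 ∧ P N E m)) ?_ ?_
      fun M hM => ?_
    · refine (ED.ex 1 ((fd_pw s 1 0).ed.and hP)).congr fun N E v hv => ?_
      simp only [Function.update_self, Function.update_of_ne, ne_eq, not_false_eq_true,
        zero_ne_one]
    · rintro ⟨m, h2, h3⟩
      rcases Nat.eq_zero_or_pos m with rfl | hm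
      · exact h0 h3
      · have : 0 < m ^ 2 ^ s := by positivity
        omega
    · simp only [Function.update_self]
      have hn2 : ∀ m : ℕ, m ^ 2 ^ s = M → 2 ≤ m := by
        intro n hn
        by_contra hc
        have h3 : 2 ^ s ≠ 0 := by positivity
        interval_cases n
        · rw [zero_pow h3] at hn; omega
        · rw [one_pow] at hn; omega
      constructor
      · rintro ⟨m, rfl, h3⟩
        have h4 := hn2 m rfl
        obtain ⟨E, hE⟩ := (hT m h4).1 h3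
        refine ⟨E, m, ?_, rfl, hE⟩
        have h5 : m ≤ m ^ 2 ^ s := Nat.le_self_pow (by positivity) m
        calc m ≤ m ^ 2 ^ s := h5
          _ = (m ^ 2 ^ s) ^ 1 := (pow_one _).symm
          _ < (m ^ 2 ^ s) ^ 8 := Nat.pow_lt_pow_right (by omega) (by norm_num)
      · rintro ⟨E, m, _, rfl, hE⟩
        exact ⟨m, rfl, (hT m (hn2 m rfl)).2 ⟨E, hE⟩⟩
  have h2 := root_isSpectrum h1 s
  convert h2 using 1
  ext n
  simp only [Set.mem_ofPred_eq]
  constructor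
  · intro h3; exact ⟨n, rfl, h3⟩
  · rintro ⟨n', h3, h4⟩
    rwa [← hinj _ _ h3]

theorem AA_lt' {G : Set ℕ} (h0 : 0 ∉ G) (h1 : 1 ∉ G) (i : ℕ) :
    2 * (AA G (i + 1) + 1) < qq (i + 1) := by
  induction i with
  | zero =>
    have h2 : cnt G 2 = 0 := by
      rw [cnt_succ_of_notMem h1, cnt_succ_of_notMem h0, cnt_zero]
    have h3 : AA G 1 = AA G 0 * qq 0 + cnt G (qq 0) := rfl
    have h4 : AA G 0 = 0 := rfl
    rw [zero_add, h3, h4, qq_succ, qq_zero, h2]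
    norm_num
  | succ i ih =>
    rw [AA, qq_succ (i + 1)]
    have h2 := cnt_lt h0 (qq (i + 1)) (by have := two_le_qq (i + 1); omega)
    nlinarith [two_le_qq (i + 1)]

/-- the certificate with the query `y` -/
def TY (N : ℕ) (E : ℕ → List ℕ → Prop) (z y : ℕ) : Prop :=
  ∃ q', q' < N ∧ ∃ q, q < N ∧ ∃ A, A < N ∧ ∃ h, h < N ∧ ∃ A1, A1 < N ∧
    (E 2 [q, A] ∧ q' * q' = q ∧ z < q' ∧ ¬ E 0 [z] ∧ h + h = q ∧ A1 = A + 1 ∧ h + A1 = y)

/-- variables `4 = z`, `3 = y` -/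
theorem fd_TY : FD (fun N E v => TY N E (v 4) (v 3)) := by
  have h1 := (FD.par 2 [6, 7]).and ((FD.mul 5 5 6).and ((FD.lt 4 5).and ((FD.par 0 [4]).not.and
    ((FD.add 8 8 6).and ((FD.succ 7 9).and (FD.add 8 9 3))))))
  refine (FD.ex 5 (FD.ex 6 (FD.ex 7 (FD.ex 8 (FD.ex 9 h1))))).congr fun N E v hv => ?_
  unfold TY
  simp only [Function.update_self, Function.update_of_ne, ne_eq, not_false_eq_true,
    Nat.reduceEqDiff, List.map_cons, List.map_nil]

/-- the certificate for `n` with the query `y` -/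
def TN (c t N : ℕ) (E : ℕ → List ℕ → Prop) (n y : ℕ) : Prop :=
  (JF N E ∧ JQ N E) ∧ ((∀ a, a < N → E 0 [a] → a ∈ UU) ∧
    ∃ d, d < N ∧ ∃ x, x < N ∧ ∃ p, p < N ∧ ∃ z, z < N ∧ (d = c ∧ pq d n = x ∧ n ^ 2 ^ t = p ∧
      pq x p = z ∧ TY N E z y))

/-- variables `2 = n`, `3 = y` -/
theorem ed_TN (c t : ℕ) : ED (fun N E v => TN c t N E (v 2) (v 3)) := by
  have h1 := (FD.num c 5).and ((fd_pq 5 2 6 (by norm_num) (by norm_num) (by norm_num)).and
    ((fd_pw t 2 7).and ((fd_pq 6 7 4 (by norm_num) (by norm_num) (by norm_num)).and fd_TY)))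
  refine ((fd_JF.and fd_JQ).ed.and ((ed_sub UU_isSpectrum).and
    (FD.ex 5 (FD.ex 6 (FD.ex 7 (FD.ex 4 h1)))).ed)).congr fun N E v hv => ?_
  unfold TN
  simp only [Function.update_self, Function.update_of_ne, ne_eq, not_false_eq_true,
    Nat.reduceEqDiff]

theorem UU_ne : UU.Nonempty := by
  obtain ⟨c, t, h⟩ := instance_iff all_isSpectrum
  exact ⟨_, (h t le_rfl 2 le_rfl).2 (by simp)⟩

theorem one_notMem_UU : 1 ∉ UU := fun h => by have := h.1; omega

theorem zero_notMem_UU : 0 ∉ UU := fun h => by have := h.1; omega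

theorem TY_sound {N z y : ℕ} {E : ℕ → List ℕ → Prop} (hF : JF N E) (hQ : JQ N E)
    (hs : ∀ a, a < N → E 0 [a] → a ∈ UU) (hT : TY N E z y) (hy : y < N) (hy0 : 0 < y)
    (hyc : y ∉ cut (xx UU)) : z ∉ UU := by
  refine TK_sound (N := N) (E := E) zero_notMem_UU UU_ne hF hQ hs ?_
  obtain ⟨q', hq', q, hq, A, hA, h, hh, A1, hA1, h1, h2, h3, h4, h5, h6, h7⟩ := hT
  exact ⟨q', hq', q, hq, A, hA, h, hh, A1, hA1, ⟨h1, h2, h3, h4, h5, h6⟩,
    Or.inr ⟨y, hy, h7, hy0, hyc⟩⟩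

theorem TY_complete {z : ℕ} (hz : 2 ≤ z) (hzU : z ∉ UU) : ∃ y, 0 < y ∧ y ≤ z ^ 4 ∧
    y ∉ cut (xx UU) ∧ ∀ N, z ^ 4 < N → TY N (EE UU) z y := by
  have hex : ∃ i, z < qq i := ⟨z, lt_qq z⟩
  classical
  set i := Nat.find hex with hi
  have hi1 : z < qq i := Nat.find_spec hex
  have hi0 : i ≠ 0 := by
    intro h
    rw [h, qq_zero] at hi1
    omega
  have hi2 : qq i ≤ z ^ 2 := by
    obtain ⟨l, hl⟩ : ∃ l, i = l + 1 := ⟨i - 1, by omega⟩
    have h4 : ¬ z < qq l := Nat.find_min hex (by omega)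
    rw [hl, qq_succ, pow_two]
    exact Nat.mul_le_mul (by omega) (by omega)
  have hi3 : qq (i + 1) ≤ z ^ 4 := by
    rw [qq_succ]
    calc qq i * qq i ≤ z ^ 2 * z ^ 2 := Nat.mul_le_mul hi2 hi2
      _ = z ^ 4 := by ring
  have hi4 := qq_lt_succ i
  have hlt := AA_lt' zero_notMem_UU one_notMem_UU i
  obtain ⟨k, hk⟩ := half_qq (i + 1)
  refine ⟨2 ^ k + (AA UU (i + 1) + 1), by omega, by omega, ?_, fun N hN => ?_⟩
  · rw [mem_cut_iff zero_notMem_UU UU_ne rfl (by omega) hk.ge, ← hk, mul_comm]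
    intro hc
    have := Nat.le_of_mul_le_mul_left hc (by have := two_le_qq (i + 1); omega)
    omega
  · exact ⟨qq i, by omega, qq (i + 1), by omega, AA UU (i + 1), by omega, 2 ^ k, by omega,
      AA UU (i + 1) + 1, by omega, EE_2.2 ⟨_, rfl, rfl⟩, (qq_succ i).symm, hi1,
      fun hc => hzU (EE_0.1 hc), by omega, rfl, rfl⟩

/-- the size of the instances -/
theorem inst_lt {c t n : ℕ} (ht : c + 3 ≤ t) (hn : 2 ≤ n) :
    pq (pq c n) (n ^ 2 ^ t) < (n ^ 2 ^ t) ^ 8 := by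
  set m := n ^ 2 ^ t with hm
  have h6 : n * (c + 3) ≤ m := by
    calc n * (c + 3) ≤ n * 2 ^ (c + 2) :=
          Nat.mul_le_mul_left _ (by have := @Nat.lt_two_pow_self (c + 2); omega)
      _ ≤ n * n ^ (c + 2) := Nat.mul_le_mul_left _ (Nat.pow_le_pow_left hn _)
      _ = n ^ (c + 3) := by ring
      _ ≤ n ^ 2 ^ t := Nat.pow_le_pow_right (by omega)
          (by have := @Nat.lt_two_pow_self t; omega)
  have h7 : c + n ≤ m := by nlinarith
  have h8 : 6 ≤ m := by nlinarith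
  have h10 : pq c n ≤ m ^ 3 := by
    unfold pq
    calc (c + n) * (c + n) + n ≤ m * m + m * m := Nat.add_le_add (Nat.mul_le_mul h7 h7)
          (by nlinarith)
      _ = 2 * m ^ 2 := by ring
      _ ≤ m * m ^ 2 := Nat.mul_le_mul_right _ (by omega)
      _ = m ^ 3 := by ring
  have e1 : m ≤ m ^ 3 := Nat.le_self_pow (by norm_num) m
  have e2 : m ≤ m ^ 6 := Nat.le_self_pow (by norm_num) m
  have e3 : 0 < m ^ 6 := by positivity
  calc pq (pq c n) m = (pq c n + m) * (pq c n + m) + m := rfl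
    _ ≤ (2 * m ^ 3) * (2 * m ^ 3) + m ^ 6 :=
        Nat.add_le_add (Nat.mul_le_mul (by omega) (by omega)) e2
    _ = 5 * m ^ 6 := by ring
    _ < 36 * m ^ 6 := by omega
    _ ≤ (m * m) * m ^ 6 := Nat.mul_le_mul_right _ (by nlinarith)
    _ = m ^ 8 := by ring

theorem pow_help (n t : ℕ) : ((n ^ 2 ^ t) ^ 8) ^ 4 = n ^ 2 ^ (t + 5) := by
  rw [← pow_mul, ← pow_mul, pow_add]
  norm_num

/-- the normal form -/
theorem normal_form {S : Set ℕ} (hS : IsSpectrum S) : ∃ T, IsSpectrum T ∧ ∃ c : ℕ, ∀ n, 0 < n →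
    (n ∉ S ↔ ∃ y, 0 < y ∧ y ≤ n ^ c + c ∧ y ∉ cut (xx UU) ∧ (n + y) ^ 2 + y ∈ T) := by
  obtain ⟨c, t0, h⟩ := instance_iff hS
  set t := t0 + c + 3 with ht
  have key := h t (by omega)
  -- one number outside the cut
  obtain ⟨y0, hy0, _, hy1, _⟩ : ∃ y, 0 < y ∧ y ≤ 1 + y ∧ y ∉ cut (xx UU) ∧ True := by
    obtain ⟨c', t', h'⟩ := instance_iff (S := ∅) (by
      have h1 : (0 : ℝ) * 2 ^ 0 = (0 : ℕ) := by norm_num
      have h2 := (dyadic h1).1
      convert h2 using 1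
      ext n
      simp only [Set.mem_empty_iff_false, false_iff]
      rintro ⟨h3, h4⟩
      have h5 : 2 ^ Nat.log 2 n ≤ n := Nat.pow_log_le_self 2 (by omega)
      have h6 : ((2 ^ Nat.log 2 n : ℕ) : ℝ) ≤ n := by exact_mod_cast h5
      push_cast at h6
      linarith)
    have h3 := h' t' le_rfl 2 le_rfl
    simp only [Set.mem_empty_iff_false, iff_false] at h3
    have h4 : 2 ≤ pq (pq c' 2) (2 ^ 2 ^ t') := by
      have := left_le_pq (pq c' 2) (2 ^ 2 ^ t')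
      have := right_le_pq c' 2
      omega
    obtain ⟨y, h5, _, h6, _⟩ := TY_complete h4 h3
    exact ⟨y, h5, by omega, h6, trivial⟩
  set T : Set ℕ := {m | ∃ n y, pq n y = m ∧ 0 < y ∧
    ((2 ≤ n ∧ ∃ E, TN c t ((m ^ 2 ^ (t + 5)) ^ 8) E n y) ∨ (n = 1 ∧ 1 ∉ S ∧ y = y0))} with hTdef
  have hpqm : ∀ n y : ℕ, (n + y) ^ 2 + y = pq n y := fun n y => by unfold pq; ring
  have hTS : IsSpectrum T := by
    refine wrapT (P := fun N E m => ∃ n, n < N ∧ ∃ y, y < N ∧ (pq n y = m ∧ 0 < y ∧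
      ((2 ≤ n ∧ TN c t N E n y) ∨ (n = 1 ∧ 1 ∉ S ∧ y = y0)))) ?_ ?_ (t + 5) fun m hm => ?_
    · have h1 : FD (fun _ _ v => 2 ≤ v 2) := by
        refine ((FD.num 0 2).or (FD.num 1 2)).not.congr fun N E v hv => ?_
        omega
      have h2 : FD (fun _ _ v => 0 < v 3) := by
        refine (FD.num 0 3).not.congr fun N E v hv => ?_
        omega
      have h3 := (FD.num 1 2).and ((FD.const (1 ∉ S)).and (FD.num y0 3))
      refine (ED.ex 2 (ED.ex 3 ((fd_pq 2 3 1 (by norm_num) (by norm_num) (by norm_num)).ed.and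
        (h2.ed.and ((h1.ed.and (ed_TN c t)).or h3.ed))))).congr fun N E v hv => ?_
      simp only [Function.update_self, Function.update_of_ne, ne_eq, not_false_eq_true,
        OfNat.one_ne_ofNat, Nat.reduceEqDiff]
    · rintro ⟨n, y, h1, h2, _⟩
      have := right_le_pq n y
      omega
    · have hmN : m < (m ^ 2 ^ (t + 5)) ^ 8 := by
        have h5 : m ≤ m ^ 2 ^ (t + 5) := Nat.le_self_pow (by positivity) m
        calc m ≤ m ^ 2 ^ (t + 5) := h5
          _ = (m ^ 2 ^ (t + 5)) ^ 1 := (pow_one _).symm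
          _ < (m ^ 2 ^ (t + 5)) ^ 8 := Nat.pow_lt_pow_right (by omega) (by norm_num)
      constructor
      · rintro ⟨n, y, h1, h2, h3⟩
        have h4 := left_le_pq n y
        have h5 := right_le_pq n y
        rcases h3 with ⟨h3, E, hE⟩ | h3
        · exact ⟨E, n, by omega, y, by omega, h1, h2, Or.inl ⟨h3, hE⟩⟩
        · exact ⟨fun _ _ => False, n, by omega, y, by omega, h1, h2, Or.inr h3⟩
      · rintro ⟨E, n, _, y, _, h1, h2, h3⟩
        refine ⟨n, y, h1, h2, ?_⟩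
        rcases h3 with ⟨h3, hE⟩ | h3
        · exact Or.inl ⟨h3, E, hE⟩
        · exact Or.inr h3
  refine ⟨T, hTS, 2 ^ (t + 5) + y0, fun n hn => ?_⟩
  rcases Nat.lt_or_ge n 2 with hn2 | hn2
  · obtain rfl : n = 1 := by omega
    constructor
    · intro h1
      exact ⟨y0, hy0, (Nat.le_add_left _ _).trans (Nat.le_add_left _ _), hy1, 1, y0,
        (hpqm _ _).symm, hy0, Or.inr ⟨rfl, h1, rfl⟩⟩
    · rintro ⟨y, h1, h2, h3, n', y', h4, h5, h6⟩
      rw [hpqm] at h4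
      obtain ⟨rfl, rfl⟩ := pq_inj h4
      rcases h6 with h6 | h6
      · omega
      · exact h6.2.1
  · set z := pq (pq c n) (n ^ 2 ^ t) with hz
    have hzlt : z < (n ^ 2 ^ t) ^ 8 := inst_lt (by omega) hn2
    have hz2 : 2 ≤ z := by
      have := left_le_pq (pq c n) (n ^ 2 ^ t)
      have := right_le_pq c n
      omega
    have hz4 : z ^ 4 ≤ n ^ 2 ^ (t + 5) := by
      calc z ^ 4 ≤ ((n ^ 2 ^ t) ^ 8) ^ 4 := Nat.pow_le_pow_left hzlt.le 4
        _ = n ^ 2 ^ (t + 5) := pow_help n t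
    constructor
    · intro h1
      have h2 : z ∉ UU := fun h => h1 ((key n hn2).1 h)
      obtain ⟨y, hy1', hy2, hy3, hy4⟩ := TY_complete hz2 h2
      refine ⟨y, hy1', ?_, hy3, n, y, (hpqm _ _).symm, hy1', Or.inl ⟨hn2, EE UU, ?_⟩⟩
      · have h5 : n ^ 2 ^ (t + 5) ≤ n ^ (2 ^ (t + 5) + y0) :=
          Nat.pow_le_pow_right hn (Nat.le_add_right _ _)
        exact (hy2.trans (hz4.trans h5)).trans (Nat.le_add_right _ _)
      · rw [hpqm]
        set N := (pq n y ^ 2 ^ (t + 5)) ^ 8 with hN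
        have hn1 := left_le_pq n y
        have hNn : n ^ 2 ^ (t + 5) < N := by
          have h5 : n ^ 2 ^ (t + 5) ≤ pq n y ^ 2 ^ (t + 5) := Nat.pow_le_pow_left hn1 _
          have h6 : n ≤ n ^ 2 ^ (t + 5) := Nat.le_self_pow (by positivity) n
          calc n ^ 2 ^ (t + 5) ≤ pq n y ^ 2 ^ (t + 5) := h5
            _ = (pq n y ^ 2 ^ (t + 5)) ^ 1 := (pow_one _).symm
            _ < (pq n y ^ 2 ^ (t + 5)) ^ 8 := Nat.pow_lt_pow_right (by omega) (by norm_num)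
        have hz1 : z ≤ z ^ 4 := Nat.le_self_pow (by norm_num) z
        have e1 := left_le_pq (pq c n) (n ^ 2 ^ t)
        have e2 := right_le_pq (pq c n) (n ^ 2 ^ t)
        have e3 := left_le_pq c n
        exact ⟨⟨JF_EE _ _, JQ_EE _ zero_notMem_UU _⟩, fun a _ h => EE_0.1 h, c, by omega,
          pq c n, by omega, n ^ 2 ^ t, by omega, z, by omega, rfl, rfl, rfl, rfl,
          hy4 N (by omega)⟩
    · rintro ⟨y, h1, h2, h3, n', y', h4, h5, h6⟩
      rw [hpqm] at h4 h6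
      obtain ⟨rfl, rfl⟩ := pq_inj h4
      rcases h6 with ⟨_, E, ⟨hF, hQ⟩, hs, d, _, x, _, p, _, z', _, rfl, rfl, rfl, rfl, hT⟩ | h6
      · have hyN : y' < (pq n' y' ^ 2 ^ (t + 5)) ^ 8 := by
          have e1 := right_le_pq n' y'
          have e2 := left_le_pq n' y'
          have e3 : pq n' y' ≤ pq n' y' ^ 2 ^ (t + 5) := Nat.le_self_pow (by positivity) _
          calc y' ≤ pq n' y' ^ 2 ^ (t + 5) := by omega
            _ = (pq n' y' ^ 2 ^ (t + 5)) ^ 1 := (pow_one _).symm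
            _ < (pq n' y' ^ 2 ^ (t + 5)) ^ 8 := Nat.pow_lt_pow_right (by omega) (by norm_num)
        have h7 := TY_sound hF hQ hs hT hyN h1 h3
        exact fun h8 => h7 ((key n' hn2).2 h8)
      · omega

end Pool.Agent.H69.Mt
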