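import Pool.Agent.H69.Sp.Elim
import Pool.Agent.H69.Sp.TrA
import Pool.Agent.H69.Sp.TrB

/-!
# Squares: if `S` is a spectrum then so is `{n | n * n ∈ S}`
-/

set_option autoImplicit false

namespace Pool.Agent.H69.Mt

open Pool.Agent.H69.Sp

/-- replace every variable by two variables -/
def dbl : Fm → Fm
  | .rel i xs => .rel i (xs.flatMap fun x => [2 * x, 2 * x + 1])
  | .eq x y => .and (.eq (2 * x) (2 * y)) (.eq (2 * x + 1) (2 * y + 1))
  | .neg φ => .neg (dbl φ)
  | .and φ ψ => .and (dbl φ) (dbl ψ)
  | .all x φ => .all (2 * x) (.all (2 * x + 1) (dbl φ))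

/-- the digits -/
def dg (n : ℕ) (l : List ℕ) : List ℕ := l.flatMap fun a => [a / n, a % n]

/-- the inverse of `dg` -/
def up (n : ℕ) : List ℕ → List ℕ
  | a :: b :: t => (a * n + b) :: up n t
  | _ => []

theorem up_dg (n : ℕ) (l : List ℕ) : up n (dg n l) = l := by
  induction l with
  | nil => rfl
  | cons a l ih =>
    have h1 : dg n (a :: l) = (a / n) :: (a % n) :: dg n l := rfl
    rw [h1, up, ih, Nat.div_add_mod']

theorem digits {n a b : ℕ} (hb : b < n) : (a * n + b) / n = a ∧ (a * n + b) % n = b := by
  have hn : 0 < n := by omega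
  constructor
  · rw [mul_comm, Nat.mul_add_div hn, Nat.div_eq_of_lt hb, add_zero]
  · rw [mul_comm, Nat.mul_add_mod, Nat.mod_eq_of_lt hb]

theorem sat_dbl {n : ℕ} {I : ℕ → List ℕ → Prop} (φ : Fm) (v : ℕ → ℕ) (hv : ∀ x, v x < n) :
    Sat (· < n) I (dbl φ) v ↔
      Sat (· < n * n) (fun i l => I i (dg n l)) φ (fun x => v (2 * x) * n + v (2 * x + 1)) := by
  induction φ generalizing v with
  | rel i xs =>
    unfold dbl
    rw [sat_rel, sat_rel]
    have : (xs.flatMap fun x => [2 * x, 2 * x + 1]).map v =
        dg n (xs.map fun x => v (2 * x) * n + v (2 * x + 1)) := by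
      induction xs with
      | nil => rfl
      | cons x xs ih =>
        have h1 : (x :: xs).flatMap (fun x => [2 * x, 2 * x + 1]) =
          (2 * x) :: (2 * x + 1) :: xs.flatMap (fun x => [2 * x, 2 * x + 1]) := rfl
        have h2 := digits (a := v (2 * x)) (hv (2 * x + 1))
        rw [h1, List.map_cons, List.map_cons, ih, List.map_cons]
        change _ = ((v (2 * x) * n + v (2 * x + 1)) / n) :: ((v (2 * x) * n + v (2 * x + 1)) % n) ::
          dg n _
        rw [h2.1, h2.2]
    rw [this]
  | eq x y =>
    unfold dbl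
    rw [sat_and, sat_eq, sat_eq, sat_eq]
    constructor
    · rintro ⟨h1, h2⟩; rw [h1, h2]
    · intro h
      have h1 := digits (a := v (2 * x)) (hv (2 * x + 1))
      have h2 := digits (a := v (2 * y)) (hv (2 * y + 1))
      rw [h] at h1
      exact ⟨h1.1.symm.trans h2.1, h1.2.symm.trans h2.2⟩
  | neg φ ih => exact not_congr (ih v hv)
  | and φ ψ ih1 ih2 => exact and_congr (ih1 v hv) (ih2 v hv)
  | all x φ ih =>
    unfold dbl
    rw [sat_all, sat_all]
    have key : ∀ a, a < n → ∀ b, b < n →
        (Sat (· < n) I (dbl φ) (Function.update (Function.update v (2 * x) a) (2 * x + 1) b) ↔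
        Sat (· < n * n) (fun i l => I i (dg n l)) φ
          (Function.update (fun x => v (2 * x) * n + v (2 * x + 1)) x (a * n + b))) := by
      intro a ha b hb
      rw [ih _ (upd_lt (upd_lt hv ha _) hb _)]
      have : (fun y => Function.update (Function.update v (2 * x) a) (2 * x + 1) b (2 * y) * n +
          Function.update (Function.update v (2 * x) a) (2 * x + 1) b (2 * y + 1)) =
          Function.update (fun x => v (2 * x) * n + v (2 * x + 1)) x (a * n + b) := by
        funext y
        by_cases hy : y = x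
        · subst hy
          rw [Function.update_self, Function.update_self, Function.update_of_ne (by omega),
            Function.update_self]
        · rw [Function.update_of_ne hy, Function.update_of_ne (by omega),
            Function.update_of_ne (by omega), Function.update_of_ne (by omega),
            Function.update_of_ne (by omega)]
      rw [this]
    constructor
    · intro h c hc
      have hn : 0 < n := by
        rcases Nat.eq_zero_or_pos n with rfl | h'
        · omega
        · exact h'
      have h1 := h (c / n) (Nat.div_lt_of_lt_mul hc)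
      rw [sat_all] at h1
      have h2 := (key (c / n) (Nat.div_lt_of_lt_mul hc) (c % n) (Nat.mod_lt _ hn)).1
        (h1 (c % n) (Nat.mod_lt _ hn))
      rwa [Nat.div_add_mod'] at h2
    · intro h a ha
      rw [sat_all]
      intro b hb
      refine (key a ha b hb).2 (h _ ?_)
      calc a * n + b < a * n + n := by omega
        _ = (a + 1) * n := by ring
        _ ≤ n * n := Nat.mul_le_mul_right _ ha

/-- spectra are closed under square roots -/
theorem sq_isSpectrum {S : Set ℕ} (h : IsSpectrum S) : IsSpectrum {n | n * n ∈ S} := by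
  obtain ⟨φ, hc, hd⟩ := h.exists_fm
  refine isSpectrum_of_defs (φ := dbl φ) fun n => ?_
  change n * n ∈ S ↔ _
  rw [hd (n * n)]
  constructor
  · rintro ⟨h1, I, hI⟩
    have hn : 0 < n := Nat.pos_of_mul_pos_right h1 |> fun _ => by
      rcases Nat.eq_zero_or_pos n with rfl | h'
      · simp at h1
      · exact h'
    refine ⟨hn, fun i l => I i (up n l), ?_⟩
    rw [sat_dbl _ _ (fun _ => hn)]
    simp only [up_dg]
    exact (hc _ _ _ _ _).1 hI
  · rintro ⟨hn, I, hI⟩
    rw [sat_dbl _ _ (fun _ => hn)] at hI
    exact ⟨Nat.mul_pos hn hn, _, (hc _ _ _ _ _).1 hI⟩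

/-- the calculus: an existential second-order predicate defines a spectrum -/
theorem ed_isSpectrum {P : Pd} (h : ED P) :
    IsSpectrum {N | 0 < N ∧ ∃ E, P N E (fun _ => 0)} := by
  obtain ⟨φ, hφ⟩ := h.defs
  exact isSpectrum_of_defs hφ

/-- membership in a spectrum -/
theorem mem_ed {S : Set ℕ} (h : IsSpectrum S) (x : ℕ) : ED (fun _ _ v => v x ∈ S) := by
  obtain ⟨φ, hc, hd⟩ := h.exists_fm
  exact ED.mem hc hd x

end Pool.Agent.H69.Mt
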