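import Mathlib

/-!
# The real number that codes the census function
-/

set_option autoImplicit false

namespace Pool.Agent.H69.Mt

open Classical in
/-- the number of elements of `G` below `a` -/
noncomputable def cnt (G : Set ℕ) (a : ℕ) : ℕ := Nat.count (· ∈ G) a

/-- the thresholds -/
def qq (i : ℕ) : ℕ := 2 ^ 2 ^ i

theorem qq_zero : qq 0 = 2 := rfl

theorem qq_succ (i : ℕ) : qq (i + 1) = qq i * qq i := by
  unfold qq
  rw [← pow_add, pow_succ]
  congr 1
  ring

theorem two_le_qq (i : ℕ) : 2 ≤ qq i := by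
  unfold qq
  calc 2 = 2 ^ 1 := rfl
    _ ≤ 2 ^ 2 ^ i := Nat.pow_le_pow_right (by norm_num) Nat.one_le_two_pow

theorem qq_lt_succ (i : ℕ) : qq i < qq (i + 1) := by
  rw [qq_succ]
  nlinarith [two_le_qq i]

theorem lt_qq (i : ℕ) : i < qq i := by
  induction i with
  | zero => have := two_le_qq 0; omega
  | succ i ih => have := qq_lt_succ i; omega

theorem qq_inj {i j : ℕ} (h : qq i = qq j) : i = j := by
  have h1 : StrictMono qq := strictMono_nat_of_lt_succ qq_lt_succ
  exact h1.injective h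

/-- the digits of the census function, concatenated -/
noncomputable def AA (G : Set ℕ) : ℕ → ℕ
  | 0 => 0
  | i + 1 => AA G i * qq i + cnt G (qq i)

theorem cnt_zero (G : Set ℕ) : cnt G 0 = 0 := by simp [cnt]

theorem cnt_succ_of_mem {G : Set ℕ} {a : ℕ} (h : a ∈ G) : cnt G (a + 1) = cnt G a + 1 := by
  simp [cnt, Nat.count_succ, h]

theorem cnt_succ_of_notMem {G : Set ℕ} {a : ℕ} (h : a ∉ G) : cnt G (a + 1) = cnt G a := by
  simp [cnt, Nat.count_succ, h]

theorem cnt_mono {G H : Set ℕ} {N : ℕ} (h : ∀ a < N, a ∈ G → a ∈ H) :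
    ∀ a ≤ N, cnt G a ≤ cnt H a := by
  intro a
  induction a with
  | zero => intro _; rw [cnt_zero, cnt_zero]
  | succ a ih =>
    intro ha
    have h1 := ih (by omega)
    by_cases h2 : a ∈ G
    · rw [cnt_succ_of_mem h2, cnt_succ_of_mem (h a (by omega) h2)]
      omega
    · rw [cnt_succ_of_notMem h2]
      by_cases h3 : a ∈ H
      · rw [cnt_succ_of_mem h3]; omega
      · rw [cnt_succ_of_notMem h3]; exact h1

theorem cnt_mono_right (G : Set ℕ) {a b : ℕ} (h : a ≤ b) : cnt G a ≤ cnt G b := by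
  classical
  unfold cnt
  exact Nat.count_monotone _ h

theorem cnt_congr {G H : Set ℕ} {N : ℕ} (h : ∀ a < N, (a ∈ G ↔ a ∈ H)) :
    ∀ a ≤ N, cnt G a = cnt H a := fun a ha =>
  le_antisymm (cnt_mono (fun b hb => (h b hb).1) a ha) (cnt_mono (fun b hb => (h b hb).2) a ha)

/-- equal counts force equal sets -/
theorem mem_of_cnt_eq {G H : Set ℕ} {N : ℕ} (h : ∀ a < N, a ∈ G → a ∈ H) :
    ∀ a ≤ N, cnt G a = cnt H a → ∀ b < a, b ∈ H → b ∈ G := by
  intro a
  induction a with
  | zero => intro _ _ b hb; omega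
  | succ a ih =>
    intro ha he b hb hbH
    have h1 := cnt_mono h a (by omega)
    by_cases h2 : a ∈ H
    · rw [cnt_succ_of_mem h2] at he
      by_cases h3 : a ∈ G
      · rw [cnt_succ_of_mem h3] at he
        rcases Nat.lt_succ_iff_lt_or_eq.1 hb with hlt | rfl
        · exact ih (by omega) (by omega) b hlt hbH
        · exact h3
      · rw [cnt_succ_of_notMem h3] at he
        omega
    · rw [cnt_succ_of_notMem h2] at he
      have h3 : a ∉ G := fun h' => h2 (h a (by omega) h')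
      rw [cnt_succ_of_notMem h3] at he
      rcases Nat.lt_succ_iff_lt_or_eq.1 hb with hlt | rfl
      · exact ih (by omega) he b hlt hbH
      · exact absurd hbH h2

theorem cnt_lt {G : Set ℕ} (h0 : 0 ∉ G) : ∀ a, 0 < a → cnt G a + 1 ≤ a := by
  intro a
  induction a with
  | zero => intro h; omega
  | succ a ih =>
    intro _
    rcases Nat.eq_zero_or_pos a with rfl | ha
    · rw [cnt_succ_of_notMem h0, cnt_zero]
    · have := ih ha
      by_cases h2 : a ∈ G
      · rw [cnt_succ_of_mem h2]; omega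
      · rw [cnt_succ_of_notMem h2]; omega

theorem AA_lt {G : Set ℕ} (h0 : 0 ∉ G) (i : ℕ) : 2 * (AA G i + 1) ≤ qq i := by
  induction i with
  | zero => simp [AA, qq]
  | succ i ih =>
    rw [AA, qq_succ]
    have h1 := cnt_lt h0 (qq i) (by have := two_le_qq i; omega)
    nlinarith

theorem AA_mono {G H : Set ℕ} {N : ℕ} (h : ∀ a < N, a ∈ G → a ∈ H) :
    ∀ i, qq i ≤ N * N → AA G i ≤ AA H i := by
  intro i
  induction i with
  | zero => intro _; rw [AA, AA]
  | succ i ih =>
    intro hi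
    rw [qq_succ] at hi
    have h1 : qq i ≤ N := by
      by_contra hc
      have : N * N < qq i * qq i := Nat.mul_self_lt_mul_self (by omega)
      omega
    have h2 : qq i ≤ N * N := by
      have := two_le_qq i
      nlinarith
    rw [AA, AA]
    exact Nat.add_le_add (Nat.mul_le_mul_right _ (ih h2)) (cnt_mono h _ h1)

theorem AA_congr {G H : Set ℕ} {N : ℕ} (h : ∀ a < N, (a ∈ G ↔ a ∈ H)) (i : ℕ)
    (hi : qq i ≤ N * N) : AA G i = AA H i :=
  le_antisymm (AA_mono (fun b hb => (h b hb).1) i hi) (AA_mono (fun b hb => (h b hb).2) i hi)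

theorem AA_mono_of {G H : Set ℕ} {N : ℕ} (h : ∀ a < N, a ∈ G → a ∈ H) {i : ℕ}
    (hi : qq i ≤ N) (he : AA G (i + 1) = AA H (i + 1)) : cnt G (qq i) = cnt H (qq i) := by
  have h2 : qq i ≤ N * N := by
    have := two_le_qq i
    nlinarith
  have h3 := AA_mono h i h2
  have h4 := cnt_mono h _ hi
  have h5 := Nat.mul_le_mul_right (qq i) h3
  rw [AA, AA] at he
  omega

/-- the real number -/
noncomputable def xx (G : Set ℕ) : ℝ := ⨆ i, (2 * (AA G i : ℝ)) / qq i

section
variable {G : Set ℕ} (h0 : 0 ∉ G)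

theorem qq_pos (i : ℕ) : (0 : ℝ) < qq i := by
  have := two_le_qq i
  exact_mod_cast (by omega : 0 < qq i)

theorem lo_step (i : ℕ) : (2 * (AA G i : ℝ)) / qq i ≤ (2 * (AA G (i + 1) : ℝ)) / qq (i + 1) := by
  have h1 := qq_pos i
  have h2 : (AA G (i + 1) : ℝ) = AA G i * qq i + cnt G (qq i) := by
    rw [AA]; push_cast; rfl
  have h3 : (qq (i + 1) : ℝ) = qq i * qq i := by rw [qq_succ]; push_cast; rfl
  rw [h2, h3, div_le_div_iff₀ h1 (by positivity)]
  have h4 : (0 : ℝ) ≤ cnt G (qq i) := by positivity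
  nlinarith [mul_nonneg h4 h1.le]

include h0 in
theorem hi_step (i : ℕ) :
    (2 * ((AA G (i + 1) : ℝ) + 1)) / qq (i + 1) ≤ (2 * ((AA G i : ℝ) + 1)) / qq i := by
  have h1 := qq_pos i
  have h2 : (AA G (i + 1) : ℝ) = AA G i * qq i + cnt G (qq i) := by
    rw [AA]; push_cast; rfl
  have h3 : (qq (i + 1) : ℝ) = qq i * qq i := by rw [qq_succ]; push_cast; rfl
  have h4 : (cnt G (qq i) : ℝ) + 1 ≤ qq i := by
    exact_mod_cast cnt_lt h0 (qq i) (by have := two_le_qq i; omega)
  rw [h2, h3, div_le_div_iff₀ (by positivity) h1]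
  nlinarith [mul_le_mul_of_nonneg_right h4 h1.le]

theorem lo_mono : Monotone fun i => (2 * (AA G i : ℝ)) / qq i := monotone_nat_of_le_succ lo_step

include h0 in
theorem hi_anti : Antitone fun i => (2 * ((AA G i : ℝ) + 1)) / qq i :=
  antitone_nat_of_succ_le (hi_step h0)

include h0 in
theorem lo_le_hi (i j : ℕ) : (2 * (AA G i : ℝ)) / qq i ≤ (2 * ((AA G j : ℝ) + 1)) / qq j := by
  have h1 := lo_mono (G := G) (le_max_left i j)
  have h2 := hi_anti h0 (le_max_right i j)
  refine h1.trans (le_trans ?_ h2)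
  have := qq_pos (max i j)
  beta_reduce
  rw [div_le_div_iff_of_pos_right this]
  linarith

include h0 in
theorem bdd : BddAbove (Set.range fun i => (2 * (AA G i : ℝ)) / qq i) :=
  ⟨_, by rintro _ ⟨i, rfl⟩; exact lo_le_hi h0 i 0⟩

include h0 in
theorem xx_le (i : ℕ) : xx G * qq i ≤ 2 * ((AA G i : ℝ) + 1) := by
  have h1 : xx G ≤ (2 * ((AA G i : ℝ) + 1)) / qq i := ciSup_le fun j => lo_le_hi h0 j i
  exact (le_div_iff₀ (qq_pos i)).1 h1

include h0 in
theorem lt_xx (hne : G.Nonempty) (i : ℕ) : 2 * (AA G i : ℝ) < xx G * qq i := by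
  obtain ⟨a, ha⟩ := hne
  set j := max i a with hj
  have h1 : cnt G (qq j) ≠ 0 := by
    have h2 : a + 1 ≤ qq j := by
      have := lt_qq j
      have : a ≤ j := le_max_right _ _
      omega
    have h3 := cnt_mono_right G h2
    rw [cnt_succ_of_mem ha] at h3
    omega
  have h2 : (2 * (AA G j : ℝ)) / qq j < (2 * (AA G (j + 1) : ℝ)) / qq (j + 1) := by
    have h1' := qq_pos j
    have h2 : (AA G (j + 1) : ℝ) = AA G j * qq j + cnt G (qq j) := by
      rw [AA]; push_cast; rfl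
    have h3 : (qq (j + 1) : ℝ) = qq j * qq j := by rw [qq_succ]; push_cast; rfl
    have h4 : (0 : ℝ) < cnt G (qq j) := by exact_mod_cast Nat.pos_of_ne_zero h1
    rw [h2, h3, div_lt_div_iff₀ h1' (by positivity)]
    nlinarith [mul_pos h4 h1']
  have h3 : (2 * (AA G i : ℝ)) / qq i ≤ (2 * (AA G j : ℝ)) / qq j := lo_mono (le_max_left _ _)
  have h4 : (2 * (AA G (j + 1) : ℝ)) / qq (j + 1) ≤ xx G := le_ciSup (bdd h0) (j + 1)
  have h5 : (2 * (AA G i : ℝ)) / qq i < xx G := by linarith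
  exact (div_lt_iff₀ (qq_pos i)).1 h5

include h0 in
theorem xx_mem : 0 ≤ xx G ∧ xx G ≤ 1 := by
  have h1 := xx_le h0 0
  have h2 : (2 * (AA G 0 : ℝ)) / qq 0 ≤ xx G := le_ciSup (bdd h0) 0
  simp only [AA, qq_zero] at h1 h2
  norm_num at h1 h2
  exact ⟨h2, by linarith⟩

end

/-- the set of positive integers whose mantissa lies below `1 + x` -/
def cut (x : ℝ) : Set ℕ := {n | 0 < n ∧ (n : ℝ) < (1 + x) * 2 ^ Nat.log 2 n}

/-- the test -/
theorem mem_cut_iff {G : Set ℕ} (h0 : 0 ∉ G) (hne : G.Nonempty) {m k r j : ℕ}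
    (hm : m = 2 ^ k + r) (hr : r < 2 ^ k) (hj : 2 * 2 ^ k ≤ qq j) :
    m ∈ cut (xx G) ↔ r * qq j ≤ 2 * 2 ^ k * AA G j := by
  have hlog : Nat.log 2 m = k := by
    rw [Nat.log_eq_iff (Or.inr ⟨by norm_num, by subst hm; have := Nat.two_pow_pos k; omega⟩)]
    constructor
    · omega
    · rw [pow_succ]; omega
  obtain ⟨t, ht⟩ : ∃ t, qq j = 2 * 2 ^ k * t := by
    have h1 : 2 * 2 ^ k ∣ qq j := by
      unfold qq at hj ⊢
      rw [← pow_succ'] at hj ⊢
      exact (Nat.pow_dvd_pow_iff_le_right (by norm_num)).2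
        ((Nat.pow_le_pow_iff_right (by norm_num)).1 hj)
    exact h1
  have h1 := xx_le h0 j
  have h2 := lt_xx h0 hne j
  have hP : (0 : ℝ) < 2 ^ k := by positivity
  have hqj : (qq j : ℝ) = 2 * 2 ^ k * t := by rw [ht]; push_cast; rfl
  have ht0 : 0 < t := by
    rcases Nat.eq_zero_or_pos t with rfl | h
    · have := two_le_qq j; rw [ht] at this; simp at this
    · exact h
  have hmem : m ∈ cut (xx G) ↔ (r : ℝ) < xx G * 2 ^ k := by
    unfold cut
    simp only [Set.mem_ofPred_eq, hlog]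
    rw [hm]
    push_cast
    constructor
    · rintro ⟨_, h⟩; linarith
    · intro h; exact ⟨by have := Nat.two_pow_pos k; omega, by linarith⟩
  rw [hmem]
  constructor
  · intro h
    have h3 : (r * t : ℝ) < AA G j + 1 := by
      rw [hqj] at h1
      have h4 : (r : ℝ) * t < xx G * 2 ^ k * t :=
        mul_lt_mul_of_pos_right h (by exact_mod_cast ht0)
      nlinarith
    have h4 : r * t < AA G j + 1 := by exact_mod_cast h3
    rw [ht]
    calc r * (2 * 2 ^ k * t) = 2 * 2 ^ k * (r * t) := by ring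
      _ ≤ 2 * 2 ^ k * AA G j := Nat.mul_le_mul_left _ (by omega)
  · intro h
    rw [ht] at h
    have h3 : 2 * 2 ^ k * (r * t) ≤ 2 * 2 ^ k * AA G j := by
      calc 2 * 2 ^ k * (r * t) = r * (2 * 2 ^ k * t) := by ring
        _ ≤ _ := h
    have h4 : r * t ≤ AA G j := Nat.le_of_mul_le_mul_left h3 (by positivity)
    have h5 : (r : ℝ) * t ≤ AA G j := by exact_mod_cast h4
    rw [hqj] at h2
    have h6 : (r : ℝ) * t < xx G * 2 ^ k * t := by nlinarith
    exact lt_of_mul_lt_mul_right h6 (by positivity)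

end Pool.Agent.H69.Mt
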