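import Pool.Agent.H69.Mt.Pw
import Pool.Agent.H69.Mt.Arith
import Pool.Agent.H69.Sp.Per

/-!
# The inductive definitions, first-order
-/

set_option autoImplicit false

namespace Pool.Agent.H69.Mt

open Pool.Agent.H69.Sp

/-- `E 1` is (a part of) the graph of the counting function of `E 0` -/
def JF (N : ℕ) (E : ℕ → List ℕ → Prop) : Prop :=
  ∀ a, a < N → ∀ b, b < N → E 1 [a, b] → (a = 0 ∧ b = 0) ∨ ∃ a', a' < N ∧ ∃ b', b' < N ∧
    a = a' + 1 ∧ E 1 [a', b'] ∧ ((E 0 [a'] ∧ b = b' + 1) ∨ (¬ E 0 [a'] ∧ b = b'))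

/-- `E 2` is (a part of) the graph of `qq i ↦ AA G i` -/
def JQ (N : ℕ) (E : ℕ → List ℕ → Prop) : Prop :=
  ∀ q, q < N → ∀ A, A < N → E 2 [q, A] → (q = 2 ∧ A = 0) ∨ ∃ q', q' < N ∧ ∃ A', A' < N ∧
    ∃ c, c < N ∧ ∃ z, z < N ∧ q' < q ∧ E 2 [q', A'] ∧ q' * q' = q ∧ E 1 [q', c] ∧ A' * q' = z ∧
      z + c = A

/-- `E 3` consists of powers of two -/
def JP (N : ℕ) (E : ℕ → List ℕ → Prop) : Prop :=
  ∀ p, p < N → E 3 [p] → p = 1 ∨ ∃ p', p' < N ∧ p' < p ∧ E 3 [p'] ∧ p' + p' = p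


theorem fd_JF : FD (fun N E _ => JF N E) := by
  have h1 := ((FD.par 0 [3]).and (FD.succ 4 2)).or ((FD.par 0 [3]).not.and (FD.eq 2 4))
  have h2 := FD.ex 3 (FD.ex 4 ((FD.succ 3 1).and ((FD.par 1 [3, 4]).and h1)))
  have h3 := FD.all 1 (FD.all 2 ((FD.par 1 [1, 2]).imp (((FD.num 0 1).and (FD.num 0 2)).or h2)))
  refine h3.congr fun N E v hv => ?_
  unfold JF
  simp only [Function.update_self, Function.update_of_ne, ne_eq,
    not_false_eq_true, OfNat.ofNat_ne_zero, OfNat.zero_ne_ofNat, OfNat.ofNat_ne_one,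
    OfNat.one_ne_ofNat, zero_ne_one, one_ne_zero, Nat.reduceEqDiff, List.map_cons, List.map_nil]

theorem fd_JQ : FD (fun N E _ => JQ N E) := by
  have h1 := (FD.par 1 [3, 5]).and ((FD.mul 4 3 6).and (FD.add 6 5 2))
  have h2 := FD.ex 3 (FD.ex 4 (FD.ex 5 (FD.ex 6 ((FD.lt 3 1).and ((FD.par 2 [3, 4]).and
    ((FD.mul 3 3 1).and h1))))))
  have h3 := FD.all 1 (FD.all 2 ((FD.par 2 [1, 2]).imp (((FD.num 2 1).and (FD.num 0 2)).or h2)))
  refine h3.congr fun N E v hv => ?_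
  unfold JQ
  simp only [Function.update_self, Function.update_of_ne, ne_eq,
    not_false_eq_true, OfNat.ofNat_ne_zero, OfNat.zero_ne_ofNat, OfNat.ofNat_ne_one,
    OfNat.one_ne_ofNat, zero_ne_one, one_ne_zero, Nat.reduceEqDiff, List.map_cons, List.map_nil]

theorem fd_JP : FD (fun N E _ => JP N E) := by
  have h2 := FD.ex 3 ((FD.lt 3 1).and ((FD.par 3 [3]).and (FD.add 3 3 1)))
  have h3 := FD.all 1 ((FD.par 3 [1]).imp ((FD.num 1 1).or h2))
  refine h3.congr fun N E v hv => ?_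
  unfold JP
  simp only [Function.update_self, Function.update_of_ne, ne_eq,
    not_false_eq_true, OfNat.ofNat_ne_zero, OfNat.zero_ne_ofNat, OfNat.ofNat_ne_one,
    OfNat.one_ne_ofNat, zero_ne_one, one_ne_zero, Nat.reduceEqDiff, List.map_cons, List.map_nil]

/-- the guessed set -/
def GG (E : ℕ → List ℕ → Prop) : Set ℕ := {a | E 0 [a]}

theorem JF.spec {N : ℕ} {E : ℕ → List ℕ → Prop} (h : JF N E) :
    ∀ a, a < N → ∀ b, b < N → E 1 [a, b] → b = cnt (GG E) a := by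
  intro a
  induction a with
  | zero =>
    intro ha b hb h1
    rcases h 0 ha b hb h1 with ⟨_, h2⟩ | ⟨a', _, b', _, h2, _⟩
    · rw [h2, cnt_zero]
    · omega
  | succ a ih =>
    intro ha b hb h1
    rcases h _ ha b hb h1 with ⟨h2, _⟩ | ⟨a', h3, b', h4, h5, h6, h7⟩
    · omega
    · obtain rfl : a = a' := by omega
      have h8 := ih h3 b' h4 h6
      rcases h7 with ⟨h9, h10⟩ | ⟨h9, h10⟩
      · rw [cnt_succ_of_mem (G := GG E) h9, ← h8, h10]
      · rw [cnt_succ_of_notMem (G := GG E) h9, ← h8, h10]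

theorem JQ.spec {N : ℕ} {E : ℕ → List ℕ → Prop} (h : JQ N E) (hF : JF N E) :
    ∀ q, q < N → ∀ A, A < N → E 2 [q, A] → ∃ i, q = qq i ∧ A = AA (GG E) i := by
  intro q
  induction q using Nat.strong_induction_on with
  | _ q ih =>
    intro hq A hA h1
    rcases h q hq A hA h1 with ⟨h2, h3⟩ | ⟨q', h2, A', h3, c, h4, z, h5, h6, h7, h8, h9, h10, h11⟩
    · exact ⟨0, h2, h3⟩
    · obtain ⟨i, hi1, hi2⟩ := ih q' h6 h2 A' h3 h7
      refine ⟨i + 1, ?_, ?_⟩
      · rw [qq_succ, ← hi1, h8]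
      · rw [AA, ← hi2, ← hi1, h10, ← hF.spec q' h2 c h4 h9, h11]

theorem JP.spec {N : ℕ} {E : ℕ → List ℕ → Prop} (h : JP N E) :
    ∀ p, p < N → E 3 [p] → ∃ k, p = 2 ^ k := by
  intro p
  induction p using Nat.strong_induction_on with
  | _ p ih =>
    intro hp h1
    rcases h p hp h1 with h2 | ⟨p', h2, h3, h4, h5⟩
    · exact ⟨0, by simpa using h2⟩
    · obtain ⟨k, hk⟩ := ih p' h3 h2 h4
      exact ⟨k + 1, by rw [pow_succ]; omega⟩

/-- the intended witnesses -/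
def EE (G : Set ℕ) (i : ℕ) (l : List ℕ) : Prop :=
  (i = 0 ∧ ∃ a, l = [a] ∧ a ∈ G) ∨ (i = 1 ∧ ∃ a, l = [a, cnt G a]) ∨
    (i = 2 ∧ ∃ j, l = [qq j, AA G j]) ∨ (i = 3 ∧ ∃ k, l = [2 ^ k])

theorem EE_0 {G : Set ℕ} {a : ℕ} : EE G 0 [a] ↔ a ∈ G := by simp [EE]
theorem EE_1 {G : Set ℕ} {a b : ℕ} : EE G 1 [a, b] ↔ b = cnt G a := by simp [EE]
theorem EE_2 {G : Set ℕ} {q A : ℕ} : EE G 2 [q, A] ↔ ∃ j, q = qq j ∧ A = AA G j := by simp [EE]
theorem EE_3 {G : Set ℕ} {p : ℕ} : EE G 3 [p] ↔ ∃ k, p = 2 ^ k := by simp [EE]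

theorem GG_EE (G : Set ℕ) : GG (EE G) = G := by
  ext a; exact EE_0

theorem cnt_le (G : Set ℕ) (a : ℕ) : cnt G a ≤ a := by
  classical
  unfold cnt
  exact Nat.count_le _

theorem JF_EE (G : Set ℕ) (N : ℕ) : JF N (EE G) := by
  intro a ha b hb h
  rw [EE_1] at h
  cases a with
  | zero => left; exact ⟨rfl, by rw [h, cnt_zero]⟩
  | succ a =>
    right
    refine ⟨a, by omega, cnt G a, by have := cnt_le G a; omega, rfl, EE_1.2 rfl, ?_⟩
    rw [EE_0]
    by_cases h1 : a ∈ G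
    · left; exact ⟨h1, by rw [h, cnt_succ_of_mem h1]⟩
    · right; exact ⟨h1, by rw [h, cnt_succ_of_notMem h1]⟩

theorem JQ_EE (G : Set ℕ) (h0 : 0 ∉ G) (N : ℕ) : JQ N (EE G) := by
  intro q hq A hA h
  rw [EE_2] at h
  obtain ⟨j, rfl, rfl⟩ := h
  cases j with
  | zero => left; exact ⟨rfl, rfl⟩
  | succ j =>
    right
    have h1 := qq_lt_succ j
    have h2 := AA_lt h0 j
    have h3 : AA G (j + 1) = AA G j * qq j + cnt G (qq j) := rfl
    exact ⟨qq j, by omega, AA G j, by omega, cnt G (qq j), by omega, AA G j * qq j, by omega, h1,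
      EE_2.2 ⟨j, rfl, rfl⟩, (qq_succ j).symm, EE_1.2 rfl, rfl, rfl⟩

theorem JP_EE (G : Set ℕ) (N : ℕ) : JP N (EE G) := by
  intro p hp h
  rw [EE_3] at h
  obtain ⟨k, rfl⟩ := h
  cases k with
  | zero => left; rfl
  | succ k =>
    right
    have := Nat.two_pow_pos k
    rw [pow_succ] at hp ⊢
    exact ⟨2 ^ k, by omega, by omega, EE_3.2 ⟨k, rfl⟩, by ring⟩

/-- the size of the universe is the eighth power of the variable `0` -/
theorem fd_K8 : FD (fun N _ v => N = v 0 ^ 8 ∧ 2 ≤ v 0) := by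
  refine (FD.ex 1 (FD.ex 2 (FD.ex 3 (FD.ex 4 (FD.ex 5 (FD.ex 6 ((FD.all 7 (FD.le 7 1)).and
    ((FD.num 2 6).and ((FD.le 6 0).and ((FD.mul 0 0 2).and ((FD.mul 2 2 3).and ((FD.succ 4 3).and
    ((FD.succ 3 5).and (FD.mul 4 5 1)))))))))))))).congr fun N E v hv => ?_
  simp only [Function.update_self, Function.update_of_ne, ne_eq,
    not_false_eq_true, OfNat.ofNat_ne_zero, OfNat.zero_ne_ofNat, OfNat.ofNat_ne_one,
    OfNat.one_ne_ofNat, zero_ne_one, one_ne_zero, Nat.reduceEqDiff, List.map_cons, List.map_nil]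
  constructor
  · rintro ⟨t, ht, s, hs, s2, hs2, u, hu, w, hw, tw, htw, h1, h2, h3, h4, h5, h6, h7, h8⟩
    have h9 := h1 (N - 1) (by omega)
    have h10 : N = t + 1 := by omega
    refine ⟨?_, by omega⟩
    have h11 : u * (u + 1 + 1) + 1 = (u + 1) * (u + 1) := by ring
    rw [h10, ← h8, h7, h6, h11, ← h6, ← h5, ← h4]
    ring
  · rintro ⟨h1, h2⟩
    have h3 : 2 * v 0 ≤ v 0 * v 0 := Nat.mul_le_mul_right _ h2
    have h4 : 4 * (v 0 * v 0) ≤ (v 0 * v 0) * (v 0 * v 0) := Nat.mul_le_mul_right _ (by nlinarith)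
    have h5 : 16 * ((v 0 * v 0) * (v 0 * v 0)) ≤
      ((v 0 * v 0) * (v 0 * v 0)) * ((v 0 * v 0) * (v 0 * v 0)) :=
        Nat.mul_le_mul_right _ (by nlinarith)
    have h6 : N = ((v 0 * v 0) * (v 0 * v 0)) * ((v 0 * v 0) * (v 0 * v 0)) := by rw [h1]; ring
    set s := v 0 * v 0 with hs
    set s2 := s * s with hs2
    obtain ⟨u, hu⟩ : ∃ u, s2 = u + 1 := ⟨s2 - 1, by omega⟩
    have h7 : u * (s2 + 1) + 1 = N := by rw [h6, hu]; ring
    refine ⟨N - 1, by omega, s, by omega, s2, by omega, u, by omega, s2 + 1, by omega, 2, by omega,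
      fun a ha => by omega, rfl, h2, rfl, rfl, hu, rfl, by omega⟩

/-- the wrapper: it suffices to define `T` in the universe of size `n ^ 8` -/
theorem wrap {P : Pd} (hP : ED P) {T : Set ℕ} (h0 : 0 ∉ T)
    (hT : ∀ n, 2 ≤ n → (n ∈ T ↔ ∃ E, P (n ^ 8) E (Function.update (fun _ => 0) 0 n))) :
    IsSpectrum T := by
  have h1 : ED (fun N E v => (∃ n, n < N ∧ ((N = n ^ 8 ∧ 2 ≤ n) ∧ P N E (Function.update v 0 n))) ∨
      (N = 1 ∧ 1 ∈ T)) := by
    have h1 : ED (fun N _ _ => N = 1 ∧ 1 ∈ T) := by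
      refine ((FD.all 1 (FD.num 0 1)).and (FD.const (1 ∈ T))).ed.congr fun N E v hv => ?_
      simp only [Function.update_self]
      refine and_congr_left fun _ => ?_
      have := hv 0
      constructor
      · intro h
        have := h (N - 1) (by omega)
        omega
      · intro h a ha; omega
    refine ((ED.ex 0 (fd_K8.ed.and hP)).or h1).congr fun N E v hv => ?_
    simp only [Function.update_self]
  have h2 := sq_isSpectrum (sq_isSpectrum (sq_isSpectrum (ed_isSpectrum h1)))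
  convert h2 using 1
  ext n
  have e : n * n * (n * n) * (n * n * (n * n)) = n ^ 8 := by ring
  simp only [Set.mem_ofPred_eq, e]
  rcases Nat.lt_or_ge n 2 with hn | hn
  · interval_cases n
    · simp [h0]
    · constructor
      · intro h; exact ⟨by norm_num, fun _ _ => False, Or.inr ⟨rfl, h⟩⟩
      · rintro ⟨_, E, ⟨m, hm, h3, _⟩ | ⟨_, h3⟩⟩
        · have := h3.2; norm_num at hm; omega
        · exact h3
  · rw [hT n hn]
    have hpos : 0 < n ^ 8 := by positivity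
    constructor
    · rintro ⟨E, hE⟩
      refine ⟨hpos, E, Or.inl ⟨n, ?_, ⟨rfl, hn⟩, hE⟩⟩
      calc n = n ^ 1 := (pow_one n).symm
        _ < n ^ 8 := Nat.pow_lt_pow_right (by omega) (by norm_num)
    · rintro ⟨_, E, ⟨m, hm, h3, h4⟩ | ⟨h3, _⟩⟩
      · have : n = m := Nat.pow_left_injective (by norm_num) h3.1
        subst this
        exact ⟨E, h4⟩
      · have : 1 < n ^ 8 := Nat.one_lt_pow (by norm_num) (by omega)
        omega

end Pool.Agent.H69.Mt
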