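import Pool.Agent.H69.Mt.Code

/-!
# Reflection: `cut (1 - x)` and the complement of `cut x`
-/

set_option autoImplicit false

namespace Pool.Agent.H69.Mt

open Pool.Agent.H69.Sp

theorem exists_kr {m : ℕ} (hm : 0 < m) : ∃ k r, m = 2 ^ k + r ∧ r < 2 ^ k := by
  have h1 : 2 ^ Nat.log 2 m ≤ m := Nat.pow_log_le_self 2 (by omega)
  have h2 : m < 2 ^ (Nat.log 2 m + 1) := Nat.lt_pow_succ_log_self (by norm_num) m
  rw [pow_succ] at h2
  exact ⟨Nat.log 2 m, m - 2 ^ Nat.log 2 m, by omega, by omega⟩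

theorem mem_cut {x : ℝ} {k r : ℕ} (hr : r < 2 ^ k) :
    2 ^ k + r ∈ cut x ↔ (r : ℝ) < x * 2 ^ k := by
  have hlog : Nat.log 2 (2 ^ k + r) = k := by
    rw [Nat.log_eq_iff (Or.inr ⟨by norm_num, by have := Nat.two_pow_pos k; omega⟩)]
    constructor
    · omega
    · rw [pow_succ]; omega
  unfold cut
  simp only [Set.mem_ofPred_eq, hlog]
  push_cast
  constructor
  · rintro ⟨_, h⟩; linarith
  · intro h; exact ⟨by have := Nat.two_pow_pos k; omega, by linarith⟩

/-- the reflected test -/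
def TR (c : Prop) (K : Set ℕ) (N : ℕ) (E : ℕ → List ℕ → Prop) (m : ℕ) : Prop :=
  ∃ p, p < N ∧ ∃ r, r < N ∧ (E 3 [p] ∧ p + r = m ∧ r < p) ∧
    ((r = 0 ∧ c) ∨ (¬ r = 0 ∧ ∃ s, s < N ∧ ∃ y, y < N ∧ (r + s = p ∧ p + s = y) ∧ y ∈ K))

theorem ed_TR (c : Prop) {K : Set ℕ} (hK : IsSpectrum K) : ED (fun N E v => TR c K N E (v 0)) := by
  have h1 := (FD.par 3 [1]).and ((FD.add 1 2 0).and (FD.lt 2 1))
  have h2 := (FD.num 0 2).not.ed.and (ED.ex 3 (ED.ex 4 (((FD.add 2 3 1).and (FD.add 1 3 4)).ed.and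
    (mem_ed hK 4))))
  refine (ED.ex 1 (ED.ex 2 (h1.ed.and (((FD.num 0 2).and (FD.const c)).ed.or h2)))).congr
    fun N E v hv => ?_
  unfold TR
  simp only [Function.update_self, Function.update_of_ne, ne_eq,
    not_false_eq_true, OfNat.ofNat_ne_zero, OfNat.zero_ne_ofNat, OfNat.ofNat_ne_one,
    OfNat.one_ne_ofNat, zero_ne_one, one_ne_zero, Nat.reduceEqDiff, List.map_cons, List.map_nil]

theorem reflect {K T : Set ℕ} (hK : IsSpectrum K) (h0 : 0 ∉ T) (c : Prop)
    (h : ∀ k r, r < 2 ^ k → (2 ^ k + r ∈ T ↔ (r = 0 ∧ c) ∨ (r ≠ 0 ∧ 2 ^ k + (2 ^ k - r) ∈ K))) :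
    IsSpectrum T := by
  refine wrap (P := fun N E v => JP N E ∧ TR c K N E (v 0)) ?_ h0 fun n hn => ?_
  · exact fd_JP.ed.and (ed_TR c hK)
  · simp only [Function.update_self]
    constructor
    · intro hT
      obtain ⟨k, r, h1, h2⟩ := exists_kr (m := n) (by omega)
      have h3 := (h k r h2).1 (h1 ▸ hT)
      have h4 : n < n ^ 8 := by
        calc n = n ^ 1 := (pow_one n).symm
          _ < n ^ 8 := Nat.pow_lt_pow_right (by omega) (by norm_num)
      have h5 : 2 * n < n ^ 8 := by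
        calc 2 * n ≤ n * n := Nat.mul_le_mul_right _ hn
          _ = n ^ 2 := by ring
          _ < n ^ 8 := Nat.pow_lt_pow_right (by omega) (by norm_num)
      refine ⟨EE ∅, JP_EE _ _, 2 ^ k, by omega, r, by omega, ⟨EE_3.2 ⟨k, rfl⟩, h1.symm, h2⟩, ?_⟩
      rcases h3 with h3 | ⟨h3, h6⟩
      · exact Or.inl h3
      · exact Or.inr ⟨h3, 2 ^ k - r, by omega, 2 ^ k + (2 ^ k - r), by omega, ⟨by omega, rfl⟩, h6⟩
    · rintro ⟨E, hP, p, hp, r, hr, ⟨h1, h2, h3⟩, h4⟩
      obtain ⟨k, rfl⟩ := hP.spec p hp h1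
      rw [← h2, h k r h3]
      rcases h4 with h4 | ⟨h4, s, hs, y, hy, ⟨h5, h6⟩, h7⟩
      · exact Or.inl h4
      · refine Or.inr ⟨h4, ?_⟩
        have : 2 ^ k - r = s := by omega
        rw [this, h6]
        exact h7

/-- the test for a dyadic rational `a / B` -/
def TD (N : ℕ) (E : ℕ → List ℕ → Prop) (a B : ℕ) (m : ℕ) : Prop :=
  ∃ p, p < N ∧ ∃ r, r < N ∧ ∃ a', a' < N ∧ ∃ B', B' < N ∧ ∃ u, u < N ∧ ∃ w, w < N ∧
    E 3 [p] ∧ p + r = m ∧ r < p ∧ a' = a ∧ B' = B ∧ r * B' = u ∧ a' * p = w ∧ u < w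

/-- the negated test for a dyadic rational `a / B` -/
def TD' (N : ℕ) (E : ℕ → List ℕ → Prop) (a B : ℕ) (m : ℕ) : Prop :=
  ∃ p, p < N ∧ ∃ r, r < N ∧ ∃ a', a' < N ∧ ∃ B', B' < N ∧ ∃ u, u < N ∧ ∃ w, w < N ∧
    E 3 [p] ∧ p + r = m ∧ r < p ∧ a' = a ∧ B' = B ∧ r * B' = u ∧ a' * p = w ∧ w ≤ u

theorem fd_TD (a B : ℕ) : FD (fun N E v => TD N E a B (v 0)) := by
  have h1 := (FD.num a 3).and ((FD.num B 4).and ((FD.mul 2 4 5).and ((FD.mul 3 1 6).and
    (FD.lt 5 6))))
  refine (FD.ex 1 (FD.ex 2 (FD.ex 3 (FD.ex 4 (FD.ex 5 (FD.ex 6 ((FD.par 3 [1]).and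
    ((FD.add 1 2 0).and ((FD.lt 2 1).and h1))))))))).congr fun N E v hv => ?_
  unfold TD
  simp only [Function.update_self, Function.update_of_ne, ne_eq,
    not_false_eq_true, OfNat.ofNat_ne_zero, OfNat.zero_ne_ofNat, OfNat.ofNat_ne_one,
    OfNat.one_ne_ofNat, zero_ne_one, one_ne_zero, Nat.reduceEqDiff, List.map_cons, List.map_nil]

theorem fd_TD' (a B : ℕ) : FD (fun N E v => TD' N E a B (v 0)) := by
  have h1 := (FD.num a 3).and ((FD.num B 4).and ((FD.mul 2 4 5).and ((FD.mul 3 1 6).and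
    (FD.le 6 5))))
  refine (FD.ex 1 (FD.ex 2 (FD.ex 3 (FD.ex 4 (FD.ex 5 (FD.ex 6 ((FD.par 3 [1]).and
    ((FD.add 1 2 0).and ((FD.lt 2 1).and h1))))))))).congr fun N E v hv => ?_
  unfold TD'
  simp only [Function.update_self, Function.update_of_ne, ne_eq,
    not_false_eq_true, OfNat.ofNat_ne_zero, OfNat.zero_ne_ofNat, OfNat.ofNat_ne_one,
    OfNat.one_ne_ofNat, zero_ne_one, one_ne_zero, Nat.reduceEqDiff, List.map_cons, List.map_nil]

/-- finite changes do not matter -/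
theorem wrap_fin {P : Pd} (hP : FD P) {T : Set ℕ} (h0 : 0 ∉ T) (M : ℕ)
    (hT : ∀ n, 2 ≤ n → M ≤ n → (n ∈ T ↔ ∃ E, P (n ^ 8) E (Function.update (fun _ => 0) 0 n)))
    (hP' : ∀ N E v, P N E v → M ≤ v 0) : IsSpectrum T := by
  refine wrap (P := fun N E v => (∃ c, c < M ∧ (v 0 = c ∧ c ∈ T)) ∨ P N E v) ?_ h0 fun n hn => ?_
  · exact ((FD.exFin M fun c => (FD.num c 0).and (FD.const (c ∈ T))).or hP).ed
  · simp only [Function.update_self]
    rcases Nat.lt_or_ge n M with h | h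
    · constructor
      · intro hT; exact ⟨fun _ _ => False, Or.inl ⟨n, h, rfl, hT⟩⟩
      · rintro ⟨E, ⟨c, _, h1, h2⟩ | h1⟩
        · rw [h1]; exact h2
        · have := hP' _ _ _ h1
          simp only [Function.update_self] at this
          omega
    · rw [hT n hn h]
      constructor
      · rintro ⟨E, hE⟩; exact ⟨E, Or.inr hE⟩
      · rintro ⟨E, ⟨c, h1, h2, _⟩ | h1⟩
        · omega
        · exact ⟨E, h1⟩

theorem dyadic {x : ℝ} {a b : ℕ} (hx : x * 2 ^ b = a) :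
    IsSpectrum (cut x) ∧ IsSpectrum (posCompl (cut x)) := by
  have key : ∀ k r, r < 2 ^ k → (2 ^ k + r ∈ cut x ↔ r * 2 ^ b < a * 2 ^ k) := by
    intro k r hr
    rw [mem_cut hr]
    have h1 : (0 : ℝ) < 2 ^ b := by positivity
    have h2 : ((r : ℝ) < x * 2 ^ k) ↔ (r : ℝ) * 2 ^ b < x * 2 ^ k * 2 ^ b :=
      (mul_lt_mul_iff_left₀ h1).symm
    have h3 : x * 2 ^ k * 2 ^ b = a * 2 ^ k := by rw [← hx]; ring
    rw [h2, h3]
    norm_cast
  have hB := Nat.two_pow_pos b
  have hM : ∀ n, 2 ≤ n → a + 2 ^ b ≤ n → n < n ^ 8 ∧ n * n < n ^ 8 := by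
    intro n hn _
    constructor
    · calc n = n ^ 1 := (pow_one n).symm
        _ < n ^ 8 := Nat.pow_lt_pow_right (by omega) (by norm_num)
    · calc n * n = n ^ 2 := by ring
        _ < n ^ 8 := Nat.pow_lt_pow_right (by omega) (by norm_num)
  constructor
  · refine wrap_fin (P := fun N E v => (JP N E ∧ TD N E a (2 ^ b) (v 0)) ∧ a + 2 ^ b ≤ v 0) ?_
      (cut_zero_notMem x) (a + 2 ^ b) (fun n hn hn2 => ?_) (fun N E v h => h.2)
    · refine (fd_JP.and (fd_TD a (2 ^ b))).and ?_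
      refine (FD.exFin (a + 2 ^ b) fun c => FD.num c 0).not.congr fun N E v hv => ?_
      constructor
      · intro h; by_contra hc; exact h ⟨v 0, by omega, rfl⟩
      · rintro h ⟨c, hc, rfl⟩; omega
    · simp only [Function.update_self]
      obtain ⟨h1, h2⟩ := hM n hn hn2
      constructor
      · intro hT
        obtain ⟨k, r, h3, h4⟩ := exists_kr (m := n) (by omega)
        have h5 := (key k r h4).1 (h3 ▸ hT)
        have h6 : a * 2 ^ k ≤ n * n := Nat.mul_le_mul (by omega) (by omega)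
        exact ⟨EE ∅, ⟨JP_EE _ _, 2 ^ k, by omega, r, by omega, a, by omega, 2 ^ b, by omega,
          r * 2 ^ b, by omega, a * 2 ^ k, by omega, EE_3.2 ⟨k, rfl⟩, h3.symm, h4, rfl, rfl, rfl,
          rfl, h5⟩, hn2⟩
      · rintro ⟨E, ⟨hP, p, hp, r, hr, a', ha, B, hB, u, hu, w, hw, h3, h4, h5, rfl, rfl, h6, h7,
          h8⟩, _⟩
        obtain ⟨k, rfl⟩ := hP.spec p hp h3
        rw [← h4, key k r h5]
        omega
  · refine wrap_fin (P := fun N E v => (JP N E ∧ TD' N E a (2 ^ b) (v 0)) ∧ a + 2 ^ b ≤ v 0) ?_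
      (compl_zero_notMem _) (a + 2 ^ b) (fun n hn hn2 => ?_) (fun N E v h => h.2)
    · refine (fd_JP.and (fd_TD' a (2 ^ b))).and ?_
      refine (FD.exFin (a + 2 ^ b) fun c => FD.num c 0).not.congr fun N E v hv => ?_
      constructor
      · intro h; by_contra hc; exact h ⟨v 0, by omega, rfl⟩
      · rintro h ⟨c, hc, rfl⟩; omega
    · simp only [Function.update_self]
      obtain ⟨h1, h2⟩ := hM n hn hn2
      constructor
      · intro hT
        obtain ⟨k, r, h3, h4⟩ := exists_kr (m := n) (by omega)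
        have h5 : ¬ (r * 2 ^ b < a * 2 ^ k) := fun h => hT.2 (by rw [h3]; exact (key k r h4).2 h)
        have h6 : a * 2 ^ k ≤ n * n := Nat.mul_le_mul (by omega) (by omega)
        have h7 : r * 2 ^ b ≤ n * n := Nat.mul_le_mul (by omega) (by omega)
        exact ⟨EE ∅, ⟨JP_EE _ _, 2 ^ k, by omega, r, by omega, a, by omega, 2 ^ b, by omega,
          r * 2 ^ b, by omega, a * 2 ^ k, by omega, EE_3.2 ⟨k, rfl⟩, h3.symm, h4, rfl, rfl, rfl,
          rfl, by omega⟩, hn2⟩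
      · rintro ⟨E, ⟨hP, p, hp, r, hr, a', ha, B, hB, u, hu, w, hw, h3, h4, h5, rfl, rfl, h6, h7,
          h8⟩, _⟩
        obtain ⟨k, rfl⟩ := hP.spec p hp h3
        refine ⟨by omega, ?_⟩
        rw [← h4, key k r h5]
        omega

/-- the complement of `cut x` is a spectrum if and only if `cut (1 - x)` is -/
theorem compl_cut_iff {x : ℝ} (h0 : 0 ≤ x) (h1 : x ≤ 1) :
    IsSpectrum (posCompl (cut x)) ↔ IsSpectrum (cut (1 - x)) := by
  by_cases hd : ∃ a b : ℕ, x * 2 ^ b = a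
  · obtain ⟨a, b, hx⟩ := hd
    have h2 : a ≤ 2 ^ b := by
      have h3 : (a : ℝ) ≤ 2 ^ b := by
        rw [← hx]
        have : (0 : ℝ) < 2 ^ b := by positivity
        nlinarith
      exact_mod_cast h3
    have h3 : (1 - x) * 2 ^ b = ((2 ^ b - a : ℕ) : ℝ) := by
      rw [Nat.cast_sub h2]
      push_cast
      linarith
    exact iff_of_true (dyadic hx).2 (dyadic h3).1
  · have hd' : ∀ (k n : ℕ), x * 2 ^ k ≠ n := fun k n h => hd ⟨n, k, h⟩
    have hx0 : x ≠ 0 := fun h => hd' 0 0 (by rw [h]; simp)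
    have hx1 : x ≠ 1 := fun h => hd' 0 1 (by rw [h]; simp)
    have hpos : 0 < x := lt_of_le_of_ne h0 (Ne.symm hx0)
    have hlt : x < 1 := lt_of_le_of_ne h1 hx1
    constructor
    · intro hK
      refine reflect hK (cut_zero_notMem _) True fun k r hr => ?_
      have hP : (0 : ℝ) < 2 ^ k := by positivity
      rw [mem_cut hr]
      rcases Nat.eq_zero_or_pos r with h | h
      · subst h
        simp only [CharP.cast_eq_zero, and_true]
        constructor
        · intro _; exact Or.inl trivial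
        · intro _; exact mul_pos (by linarith) hP
      · have h2 : 2 ^ k - r < 2 ^ k := by omega
        have h3 : 2 ^ k + (2 ^ k - r) ∈ posCompl (cut x) ↔ ¬ 2 ^ k + (2 ^ k - r) ∈ cut x :=
          ⟨fun h => h.2, fun h => ⟨by omega, h⟩⟩
        rw [h3, mem_cut h2, Nat.cast_sub hr.le]
        push_cast
        have h4 : (0 : ℝ) < r := by exact_mod_cast h
        constructor
        · intro h5
          exact Or.inr ⟨h.ne', by linarith⟩
        · rintro (⟨h5, _⟩ | ⟨_, h5⟩)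
          · omega
          · have h6 := hd' k (2 ^ k - r)
            rw [Nat.cast_sub hr.le] at h6
            push_cast at h6
            have h7 : x * 2 ^ k < 2 ^ k - r := lt_of_le_of_ne (by linarith) h6
            linarith
    · intro hK
      refine reflect hK (compl_zero_notMem _) False fun k r hr => ?_
      have hP : (0 : ℝ) < 2 ^ k := by positivity
      have h2 : 2 ^ k + r ∈ posCompl (cut x) ↔ ¬ 2 ^ k + r ∈ cut x :=
        ⟨fun h => h.2, fun h => ⟨by have := Nat.two_pow_pos k; omega, h⟩⟩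
      rw [h2, mem_cut hr]
      rcases Nat.eq_zero_or_pos r with h | h
      · subst h
        simp only [CharP.cast_eq_zero, and_false, false_or, ne_eq, not_true_eq_false, false_and,
          iff_false, not_not]
        exact mul_pos hpos hP
      · have h3 : 2 ^ k - r < 2 ^ k := by omega
        rw [mem_cut h3, Nat.cast_sub hr.le]
        push_cast
        constructor
        · intro h5
          have h6 := hd' k r
          have h7 : x * 2 ^ k < r := lt_of_le_of_ne (not_lt.1 h5) h6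
          exact Or.inr ⟨h.ne', by linarith⟩
        · rintro (⟨h5, _⟩ | ⟨_, h5⟩)
          · omega
          · linarith

theorem all_isSpectrum : IsSpectrum {n | 0 < n} := by
  have h : UltPer (Set.univ : Set ℕ) := ⟨0, 1, by norm_num, fun _ _ => by simp⟩
  have := h.isSpectrum
  simpa using this

/-- every spectrum is coded by a real number -/
theorem coding {X : Set ℕ} (hX : IsSpectrum X) : ∃ x : ℝ, 0 ≤ x ∧ x ≤ 1 ∧ IsSpectrum (cut x) ∧
    (IsSpectrum (posCompl X) ↔ IsSpectrum (posCompl (cut x))) ∧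
    (IsSpectrum (posCompl X) ↔ IsSpectrum (cut (1 - x))) := by
  rcases X.eq_empty_or_nonempty with rfl | hne
  · have h1 : (0 : ℝ) * 2 ^ 0 = (0 : ℕ) := by norm_num
    have h2 : IsSpectrum (posCompl ∅) := by
      have := all_isSpectrum
      unfold posCompl
      simpa using this
    have h3 := (dyadic h1).2
    exact ⟨0, le_rfl, zero_le_one, (dyadic h1).1, iff_of_true h2 h3,
      iff_of_true h2 ((compl_cut_iff le_rfl zero_le_one).1 h3)⟩
  · have h0 := spec_zero hX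
    obtain ⟨hx0, hx1⟩ := xx_mem h0
    have h1 : IsSpectrum (posCompl X) ↔ IsSpectrum (posCompl (cut (xx X))) :=
      ⟨compl_cut_isSpectrum hX hne, compl_isSpectrum hX hne⟩
    exact ⟨xx X, hx0, hx1, cut_isSpectrum hX hne, h1, h1.trans (compl_cut_iff hx0 hx1)⟩

end Pool.Agent.H69.Mt
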