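import Pool.Agent.H69.Mt.Def

/-!
# Coding the census function of a spectrum by one real number
-/

set_option autoImplicit false

namespace Pool.Agent.H69.Mt

open Pool.Agent.H69.Sp

/-- the comparison `r * q ≤ 2 p A` -/
def TL (N : ℕ) (E : ℕ → List ℕ → Prop) (m : ℕ) : Prop :=
  ∃ p, p < N ∧ ∃ p2, p2 < N ∧ ∃ r, r < N ∧ ∃ q, q < N ∧ ∃ A, A < N ∧ ∃ u, u < N ∧ ∃ w, w < N ∧
    E 3 [p] ∧ p + p = p2 ∧ m < p2 ∧ p + r = m ∧ E 2 [q, A] ∧ p2 ≤ q ∧ r * q = u ∧ p2 * A = w ∧ u ≤ w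

/-- the comparison `2 p A < r * q` -/
def TG (N : ℕ) (E : ℕ → List ℕ → Prop) (m : ℕ) : Prop :=
  ∃ p, p < N ∧ ∃ p2, p2 < N ∧ ∃ r, r < N ∧ ∃ q, q < N ∧ ∃ A, A < N ∧ ∃ u, u < N ∧ ∃ w, w < N ∧
    E 3 [p] ∧ p + p = p2 ∧ m < p2 ∧ p + r = m ∧ E 2 [q, A] ∧ p2 ≤ q ∧ r * q = u ∧ p2 * A = w ∧ w < u

theorem fd_TL : FD (fun N E v => TL N E (v 0)) := by
  have h1 := (FD.par 2 [4, 5]).and ((FD.le 2 4).and ((FD.mul 3 4 6).and ((FD.mul 2 5 7).and
    (FD.le 6 7))))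
  have h2 := FD.ex 1 (FD.ex 2 (FD.ex 3 (FD.ex 4 (FD.ex 5 (FD.ex 6 (FD.ex 7 ((FD.par 3 [1]).and
    ((FD.add 1 1 2).and ((FD.lt 0 2).and ((FD.add 1 3 0).and h1))))))))))
  refine h2.congr fun N E v hv => ?_
  unfold TL
  simp only [Function.update_self, Function.update_of_ne, ne_eq,
    not_false_eq_true, OfNat.ofNat_ne_zero, OfNat.zero_ne_ofNat, OfNat.ofNat_ne_one,
    OfNat.one_ne_ofNat, zero_ne_one, one_ne_zero, Nat.reduceEqDiff, List.map_cons, List.map_nil]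

theorem fd_TG : FD (fun N E v => TG N E (v 0)) := by
  have h1 := (FD.par 2 [4, 5]).and ((FD.le 2 4).and ((FD.mul 3 4 6).and ((FD.mul 2 5 7).and
    (FD.lt 7 6))))
  have h2 := FD.ex 1 (FD.ex 2 (FD.ex 3 (FD.ex 4 (FD.ex 5 (FD.ex 6 (FD.ex 7 ((FD.par 3 [1]).and
    ((FD.add 1 1 2).and ((FD.lt 0 2).and ((FD.add 1 3 0).and h1))))))))))
  refine h2.congr fun N E v hv => ?_
  unfold TG
  simp only [Function.update_self, Function.update_of_ne, ne_eq,
    not_false_eq_true, OfNat.ofNat_ne_zero, OfNat.zero_ne_ofNat, OfNat.ofNat_ne_one,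
    OfNat.one_ne_ofNat, zero_ne_one, one_ne_zero, Nat.reduceEqDiff, List.map_cons, List.map_nil]

/-- all guessed elements belong to `X` -/
theorem ed_sub {X : Set ℕ} (hX : IsSpectrum X) :
    ED (fun N E _ => ∀ a, a < N → E 0 [a] → a ∈ X) := by
  refine (ED.all 1 ((FD.par 0 [1]).not.ed.or (mem_ed hX 1))).congr fun N E v hv => ?_
  simp only [Function.update_self, Function.update_of_ne, ne_eq,
    not_false_eq_true, OfNat.ofNat_ne_zero, OfNat.zero_ne_ofNat, OfNat.ofNat_ne_one,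
    OfNat.one_ne_ofNat, zero_ne_one, one_ne_zero, Nat.reduceEqDiff, List.map_cons, List.map_nil]
  exact forall₂_congr fun a _ => by tauto

/-- all positive elements that are not guessed belong to `X` -/
theorem ed_sup {X : Set ℕ} (hX : IsSpectrum X) :
    ED (fun N E _ => ∀ a, a < N → ¬ E 0 [a] → a = 0 ∨ a ∈ X) := by
  refine (ED.all 1 ((FD.par 0 [1]).ed.or ((FD.num 0 1).ed.or (mem_ed hX 1)))).congr
    fun N E v hv => ?_
  simp only [Function.update_self, Function.update_of_ne, ne_eq,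
    not_false_eq_true, OfNat.ofNat_ne_zero, OfNat.zero_ne_ofNat, OfNat.ofNat_ne_one,
    OfNat.one_ne_ofNat, zero_ne_one, one_ne_zero, Nat.reduceEqDiff, List.map_cons, List.map_nil]
  exact forall₂_congr fun a _ => by tauto

theorem spec_zero {X : Set ℕ} (hX : IsSpectrum X) : 0 ∉ X := by
  obtain ⟨L, _, _, φ, rfl⟩ := hX
  intro h
  exact absurd h.1 (lt_irrefl 0)

/-- the decomposition of `m` and the threshold that is used -/
theorem exists_kj {m : ℕ} (hm : 2 ≤ m) : ∃ k r j, m = 2 ^ k + r ∧ r < 2 ^ k ∧ 2 * 2 ^ k ≤ qq j ∧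
    qq j ≤ 4 * m ^ 2 := by
  have h1 : 2 ^ Nat.log 2 m ≤ m := Nat.pow_log_le_self 2 (by omega)
  have h2 : m < 2 ^ (Nat.log 2 m + 1) := Nat.lt_pow_succ_log_self (by norm_num) m
  set k := Nat.log 2 m with hk
  rw [pow_succ] at h2
  have hex : ∃ j, 2 * 2 ^ k ≤ qq j := ⟨2 * 2 ^ k, (lt_qq _).le⟩
  classical
  set j := Nat.find hex with hj
  have hj1 : 2 * 2 ^ k ≤ qq j := Nat.find_spec hex
  refine ⟨k, m - 2 ^ k, j, by omega, by omega, hj1, ?_⟩
  rcases Nat.eq_zero_or_pos j with h3 | h3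
  · rw [h3, qq_zero]; nlinarith
  · obtain ⟨i, hi⟩ : ∃ i, j = i + 1 := ⟨j - 1, by omega⟩
    have h4 : ¬ 2 * 2 ^ k ≤ qq i := Nat.find_min hex (by omega)
    rw [hi, qq_succ]
    have h5 : qq i ≤ 2 * m := by omega
    calc qq i * qq i ≤ (2 * m) * (2 * m) := Nat.mul_le_mul h5 h5
      _ = 4 * m ^ 2 := by ring

theorem pow8_bound {m a : ℕ} (hm : 2 ≤ m) (ha : a ≤ 16 * m ^ 3) : a < m ^ 8 := by
  have h1 : 2 ^ 4 ≤ m ^ 4 := Nat.pow_le_pow_left hm 4
  have h2 : 0 < m ^ 3 := by positivity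
  have h3 : m ^ 8 = m ^ 4 * m ^ 3 * m := by ring
  have h4 : 16 * m ^ 3 ≤ m ^ 4 * m ^ 3 := Nat.mul_le_mul_right _ (by norm_num at h1; exact h1)
  have h5 : m ^ 4 * m ^ 3 * 2 ≤ m ^ 4 * m ^ 3 * m := Nat.mul_le_mul_left _ hm
  have h6 : 0 < m ^ 4 * m ^ 3 := by positivity
  omega

theorem TL_sound {X : Set ℕ} (h0 : 0 ∉ X) (hne : X.Nonempty) {N m : ℕ}
    {E : ℕ → List ℕ → Prop} (hF : JF N E) (hQ : JQ N E) (hP : JP N E)
    (hs : ∀ a, a < N → E 0 [a] → a ∈ X) (hT : TL N E m) : m ∈ cut (xx X) := by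
  obtain ⟨p, hp, p2, hp2, r, hr, q, hq, A, hA, u, hu, w, hw, h1, h2, h3, h4, h5, h6, h7, h8, h9⟩ :=
    hT
  obtain ⟨k, rfl⟩ := hP.spec p hp h1
  obtain ⟨j, rfl, rfl⟩ := hQ.spec hF q hq A hA h5
  have h10 : 2 * 2 ^ k ≤ qq j := by omega
  rw [mem_cut_iff h0 hne h4.symm (by omega) h10]
  have h11 : AA (GG E) j ≤ AA X j := AA_mono (N := N) hs j (by nlinarith)
  calc r * qq j = u := h7
    _ ≤ w := h9
    _ = p2 * AA (GG E) j := h8.symm
    _ = 2 * 2 ^ k * AA (GG E) j := by rw [← h2]; ring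
    _ ≤ 2 * 2 ^ k * AA X j := Nat.mul_le_mul_left _ h11

theorem TG_sound {X : Set ℕ} (h0 : 0 ∉ X) (hne : X.Nonempty) {N m : ℕ}
    {E : ℕ → List ℕ → Prop} (hF : JF N E) (hQ : JQ N E) (hP : JP N E)
    (hs : ∀ a, a < N → (E 0 [a] ↔ a ∈ X)) (hT : TG N E m) : m ∈ posCompl (cut (xx X)) := by
  obtain ⟨p, hp, p2, hp2, r, hr, q, hq, A, hA, u, hu, w, hw, h1, h2, h3, h4, h5, h6, h7, h8, h9⟩ :=
    hT
  obtain ⟨k, rfl⟩ := hP.spec p hp h1
  obtain ⟨j, rfl, rfl⟩ := hQ.spec hF q hq A hA h5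
  have h10 : 2 * 2 ^ k ≤ qq j := by omega
  refine ⟨by have := Nat.two_pow_pos k; omega, ?_⟩
  rw [mem_cut_iff h0 hne h4.symm (by omega) h10]
  have h11 : AA (GG E) j = AA X j := AA_congr (N := N) hs j (by nlinarith)
  rw [← h11, h7, not_le]
  calc 2 * 2 ^ k * AA (GG E) j = p2 * AA (GG E) j := by rw [← h2]; ring
    _ = w := h8
    _ < u := h9

/-- the values that occur -/
theorem TL_complete {X : Set ℕ} (h0 : 0 ∉ X) (hne : X.Nonempty) {m : ℕ} (hm : 2 ≤ m) :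
    (m ∈ cut (xx X) → TL (m ^ 8) (EE X) m) ∧ (m ∉ cut (xx X) → TG (m ^ 8) (EE X) m) := by
  obtain ⟨k, r, j, h1, h2, h3, h4⟩ := exists_kj hm
  have h5 := mem_cut_iff h0 hne h1 h2 h3
  have h6 := AA_lt h0 j
  have hm2 : m ≤ m ^ 2 := Nat.le_self_pow (by norm_num) m
  have hm3 : m ^ 2 ≤ m ^ 3 := Nat.pow_le_pow_right (by omega) (by norm_num)
  have b1 : r * qq j ≤ 16 * m ^ 3 := by
    calc r * qq j ≤ m * (4 * m ^ 2) := Nat.mul_le_mul (by omega) h4
      _ = 4 * m ^ 3 := by ring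
      _ ≤ 16 * m ^ 3 := by omega
  have b2 : (2 ^ k + 2 ^ k) * AA X j ≤ 16 * m ^ 3 := by
    calc (2 ^ k + 2 ^ k) * AA X j ≤ (2 * m) * (4 * m ^ 2) := Nat.mul_le_mul (by omega) (by omega)
      _ = 8 * m ^ 3 := by ring
      _ ≤ 16 * m ^ 3 := by omega
  constructor
  · intro h
    refine ⟨2 ^ k, pow8_bound hm (by omega), 2 ^ k + 2 ^ k, pow8_bound hm (by omega), r,
      pow8_bound hm (by omega), qq j, pow8_bound hm (by omega), AA X j, pow8_bound hm (by omega),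
      r * qq j, pow8_bound hm b1, (2 ^ k + 2 ^ k) * AA X j, pow8_bound hm b2, EE_3.2 ⟨k, rfl⟩, rfl,
      by omega, h1.symm, EE_2.2 ⟨j, rfl, rfl⟩, by omega, rfl, rfl, ?_⟩
    rw [← two_mul]
    exact h5.1 h
  · intro h
    refine ⟨2 ^ k, pow8_bound hm (by omega), 2 ^ k + 2 ^ k, pow8_bound hm (by omega), r,
      pow8_bound hm (by omega), qq j, pow8_bound hm (by omega), AA X j, pow8_bound hm (by omega),
      r * qq j, pow8_bound hm b1, (2 ^ k + 2 ^ k) * AA X j, pow8_bound hm b2, EE_3.2 ⟨k, rfl⟩, rfl,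
      by omega, h1.symm, EE_2.2 ⟨j, rfl, rfl⟩, by omega, rfl, rfl, ?_⟩
    rw [← two_mul]
    exact not_le.1 fun h' => h (h5.2 h')

theorem cut_zero_notMem (x : ℝ) : 0 ∉ cut x := fun h => absurd h.1 (lt_irrefl 0)

theorem compl_zero_notMem (X : Set ℕ) : 0 ∉ posCompl X := fun h => absurd h.1 (lt_irrefl 0)

/-- the cut is a spectrum -/
theorem cut_isSpectrum {X : Set ℕ} (hX : IsSpectrum X) (hne : X.Nonempty) :
    IsSpectrum (cut (xx X)) := by
  have h0 := spec_zero hX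
  refine wrap (P := fun N E v => (JF N E ∧ JQ N E ∧ JP N E ∧ TL N E (v 0)) ∧
    ∀ a, a < N → E 0 [a] → a ∈ X) ?_ (cut_zero_notMem _) fun n hn => ?_
  · exact (fd_JF.and (fd_JQ.and (fd_JP.and fd_TL))).ed.and (ed_sub hX)
  · simp only [Function.update_self]
    constructor
    · intro h
      exact ⟨EE X, ⟨JF_EE _ _, JQ_EE _ h0 _, JP_EE _ _, (TL_complete h0 hne hn).1 h⟩,
        fun a _ h => EE_0.1 h⟩
    · rintro ⟨E, ⟨h1, h2, h3, h4⟩, h5⟩
      exact TL_sound h0 hne h1 h2 h3 h5 h4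

/-- if the complement of `X` is a spectrum then so is the complement of the cut -/
theorem compl_cut_isSpectrum {X : Set ℕ} (hX : IsSpectrum X) (hne : X.Nonempty)
    (hC : IsSpectrum (posCompl X)) : IsSpectrum (posCompl (cut (xx X))) := by
  have h0 := spec_zero hX
  refine wrap (P := fun N E v => (JF N E ∧ JQ N E ∧ JP N E ∧ TG N E (v 0)) ∧
    ((∀ a, a < N → E 0 [a] → a ∈ X) ∧ ∀ a, a < N → ¬ E 0 [a] → a = 0 ∨ a ∈ posCompl X)) ?_
    (compl_zero_notMem _) fun n hn => ?_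
  · exact (fd_JF.and (fd_JQ.and (fd_JP.and fd_TG))).ed.and ((ed_sub hX).and (ed_sup hC))
  · simp only [Function.update_self]
    constructor
    · intro h
      refine ⟨EE X, ⟨JF_EE _ _, JQ_EE _ h0 _, JP_EE _ _, (TL_complete h0 hne hn).2 h.2⟩,
        fun a _ h => EE_0.1 h, fun a _ h => ?_⟩
      rw [EE_0] at h
      rcases Nat.eq_zero_or_pos a with ha | ha
      · exact Or.inl ha
      · exact Or.inr ⟨ha, h⟩
    · rintro ⟨E, ⟨h1, h2, h3, h4⟩, h5, h6⟩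
      refine TG_sound h0 hne h1 h2 h3 (fun a ha => ⟨h5 a ha, fun h7 => ?_⟩) h4
      by_contra h8
      rcases h6 a ha h8 with h9 | h9
      · exact h0 (h9 ▸ h7)
      · exact h9.2 h7

/-- the certificate that all elements below `q'` have been guessed -/
def TK (K : Set ℕ) (N : ℕ) (E : ℕ → List ℕ → Prop) (n : ℕ) : Prop :=
  ∃ q', q' < N ∧ ∃ q, q < N ∧ ∃ A, A < N ∧ ∃ h, h < N ∧ ∃ A1, A1 < N ∧
    (E 2 [q, A] ∧ q' * q' = q ∧ n < q' ∧ ¬ E 0 [n] ∧ h + h = q ∧ A1 = A + 1) ∧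
    (A1 = h ∨ ∃ y, y < N ∧ h + A1 = y ∧ y ∈ K)

theorem ed_TK {K : Set ℕ} (hK : IsSpectrum K) : ED (fun N E v => TK K N E (v 0)) := by
  have h1 := (FD.par 2 [2, 3]).and ((FD.mul 1 1 2).and ((FD.lt 0 1).and ((FD.par 0 [0]).not.and
    ((FD.add 4 4 2).and (FD.succ 3 5)))))
  have h2 := (FD.eq 5 4).ed.or (ED.ex 6 ((FD.add 4 5 6).ed.and (mem_ed hK 6)))
  refine (ED.ex 1 (ED.ex 2 (ED.ex 3 (ED.ex 4 (ED.ex 5 (h1.ed.and h2)))))).congr fun N E v hv => ?_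
  unfold TK
  simp only [Function.update_self, Function.update_of_ne, ne_eq,
    not_false_eq_true, OfNat.ofNat_ne_zero, OfNat.zero_ne_ofNat, OfNat.ofNat_ne_one,
    OfNat.one_ne_ofNat, zero_ne_one, one_ne_zero, Nat.reduceEqDiff, List.map_cons, List.map_nil]

theorem half_qq (j : ℕ) : ∃ k, qq j = 2 * 2 ^ k := by
  refine ⟨2 ^ j - 1, ?_⟩
  unfold qq
  rw [← pow_succ']
  congr 1
  have := Nat.two_pow_pos j
  omega

theorem TK_sound {X : Set ℕ} (h0 : 0 ∉ X) (hne : X.Nonempty) {N n : ℕ}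
    {E : ℕ → List ℕ → Prop} (hF : JF N E) (hQ : JQ N E)
    (hs : ∀ a, a < N → E 0 [a] → a ∈ X) (hT : TK (posCompl (cut (xx X))) N E n) : n ∉ X := by
  obtain ⟨q', hq', q, hq, A, hA, h, hh, A1, hA1, ⟨h1, h2, h3, h4, h5, h6⟩, h7⟩ := hT
  obtain ⟨j, rfl, rfl⟩ := hQ.spec hF q hq A hA h1
  have hG0 : 0 ∉ GG E := fun hc => h0 (hs 0 (by omega) hc)
  cases j with
  | zero =>
    rw [qq_zero] at h2
    have : q' ≤ 1 ∨ 2 ≤ q' := by omega
    rcases this with h8 | h8 <;> nlinarith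
  | succ i =>
    have h8 : q' = qq i := Nat.mul_self_inj.1 (by rw [h2, qq_succ])
    subst h8
    obtain ⟨k, hk⟩ := half_qq (i + 1)
    have hhk : h = 2 ^ k := by omega
    subst hhk
    have hle : AA (GG E) (i + 1) ≤ AA X (i + 1) := AA_mono (N := N) hs _ (by nlinarith)
    have hlt := AA_lt h0 (i + 1)
    have hltG := AA_lt hG0 (i + 1)
    have hge : AA X (i + 1) ≤ AA (GG E) (i + 1) := by
      rcases h7 with h7 | ⟨y, hy, h7, h9⟩
      · omega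
      · by_cases h10 : A1 = 2 ^ k
        · omega
        · have h11 : A1 < 2 ^ k := by omega
          have h12 := mem_cut_iff h0 hne h7.symm h11 hk.ge
          have h13 : ¬ A1 * qq (i + 1) ≤ 2 * 2 ^ k * AA X (i + 1) := fun hc => h9.2 (h12.2 hc)
          rw [← hk, mul_comm A1] at h13
          have h14 : AA X (i + 1) < A1 := by
            by_contra hc
            exact h13 (Nat.mul_le_mul_left _ (by omega))
          omega
    have heq : AA (GG E) (i + 1) = AA X (i + 1) := le_antisymm hle hge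
    have hcnt := AA_mono_of (N := N) hs hq'.le heq
    intro hn
    exact h4 (mem_of_cnt_eq (N := N) hs _ hq'.le hcnt n h3 hn)

theorem TK_complete {X : Set ℕ} (h0 : 0 ∉ X) (hne : X.Nonempty) {n : ℕ} (hn : 2 ≤ n)
    (hnX : n ∉ X) : TK (posCompl (cut (xx X))) (n ^ 8) (EE X) n := by
  have hex : ∃ i, n < qq i := ⟨n, lt_qq n⟩
  classical
  set i := Nat.find hex with hi
  have hi1 : n < qq i := Nat.find_spec hex
  have hi0 : i ≠ 0 := by
    intro h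
    rw [h, qq_zero] at hi1
    omega
  have hi2 : qq i ≤ n ^ 2 := by
    obtain ⟨l, hl⟩ : ∃ l, i = l + 1 := ⟨i - 1, by omega⟩
    have h4 : ¬ n < qq l := Nat.find_min hex (by omega)
    rw [hl, qq_succ, pow_two]
    exact Nat.mul_le_mul (by omega) (by omega)
  have hi3 : qq (i + 1) < n ^ 8 := by
    rw [qq_succ]
    calc qq i * qq i ≤ n ^ 2 * n ^ 2 := Nat.mul_le_mul hi2 hi2
      _ = n ^ 4 := by ring
      _ < n ^ 8 := Nat.pow_lt_pow_right (by omega) (by norm_num)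
  have hlt := AA_lt h0 (i + 1)
  obtain ⟨k, hk⟩ := half_qq (i + 1)
  refine ⟨qq i, lt_trans (qq_lt_succ i) hi3, qq (i + 1), hi3, AA X (i + 1), by omega, 2 ^ k,
    by omega, AA X (i + 1) + 1, by omega, ⟨EE_2.2 ⟨_, rfl, rfl⟩, (qq_succ i).symm, hi1,
    fun hc => hnX (EE_0.1 hc), by omega, rfl⟩, ?_⟩
  by_cases h10 : AA X (i + 1) + 1 = 2 ^ k
  · exact Or.inl h10
  · refine Or.inr ⟨2 ^ k + (AA X (i + 1) + 1), by omega, rfl, by omega, ?_⟩
    rw [mem_cut_iff h0 hne rfl (by omega) hk.ge, ← hk, mul_comm]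
    intro hc
    have := Nat.le_of_mul_le_mul_left hc (by have := two_le_qq (i + 1); omega)
    omega

/-- if the complement of the cut is a spectrum then so is the complement of `X` -/
theorem compl_isSpectrum {X : Set ℕ} (hX : IsSpectrum X) (hne : X.Nonempty)
    (hC : IsSpectrum (posCompl (cut (xx X)))) : IsSpectrum (posCompl X) := by
  have h0 := spec_zero hX
  refine wrap (P := fun N E v => (JF N E ∧ JQ N E) ∧
    ((∀ a, a < N → E 0 [a] → a ∈ X) ∧ TK (posCompl (cut (xx X))) N E (v 0))) ?_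
    (compl_zero_notMem _) fun n hn => ?_
  · exact (fd_JF.and fd_JQ).ed.and ((ed_sub hX).and (ed_TK hC))
  · simp only [Function.update_self]
    constructor
    · intro h
      exact ⟨EE X, ⟨JF_EE _ _, JQ_EE _ h0 _⟩, fun a _ h => EE_0.1 h, TK_complete h0 hne hn h.2⟩
    · rintro ⟨E, ⟨h1, h2⟩, h3, h4⟩
      exact ⟨by omega, TK_sound h0 hne h1 h2 h3 h4⟩

end Pool.Agent.H69.Mt
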