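import Pool.Agent.H69.Mt.Norm

/-!
# Complements of spectra: one real number

`cut x` is the set of the positive integers `n` whose mantissa `n / 2 ^ ⌊log₂ n⌋` lies below
`1 + x`.
-/

set_option autoImplicit false

namespace Pool.Agent.Results.MP_64fb07_lc.MantissaReal

open Pool.Agent.H69.Sp Pool.Agent.H69.Mt

theorem result : ∃ x : ℝ, 0 ≤ x ∧ x ≤ 1 ∧ IsSpectrum (cut x) ∧
    (∀ S, IsSpectrum S → ∃ T, IsSpectrum T ∧ ∃ c : ℕ, ∀ n, 0 < n →
      (n ∉ S ↔ ∃ y, 0 < y ∧ y ≤ n ^ c + c ∧ y ∉ cut x ∧ (n + y) ^ 2 + y ∈ T)) ∧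
    ((∀ S, IsSpectrum S → IsSpectrum (posCompl S)) ↔ IsSpectrum (posCompl (cut x))) ∧
    ((∀ S, IsSpectrum S → IsSpectrum (posCompl S)) ↔ IsSpectrum (cut (1 - x))) := by
  obtain ⟨h0, h1⟩ := xx_mem zero_notMem_UU
  have h2 : (∀ S, IsSpectrum S → IsSpectrum (posCompl S)) ↔ IsSpectrum (posCompl (cut (xx UU))) :=
    ⟨fun h => h _ (cut_isSpectrum UU_isSpectrum UU_ne),
      fun h S hS => universal hS (compl_isSpectrum UU_isSpectrum UU_ne h)⟩
  exact ⟨xx UU, h0, h1, cut_isSpectrum UU_isSpectrum UU_ne, fun S hS => normal_form hS, h2,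
    h2.trans (compl_cut_iff h0 h1)⟩

end Pool.Agent.Results.MP_64fb07_lc.MantissaReal
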