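import Pool.Agent.H69.Mt.Refl

/-!
# Towards a universal spectrum: truth evaluation of coded formulas
-/

set_option autoImplicit false

namespace Pool.Agent.H69.Mt

open Pool.Agent.H69.Sp

/-- the quotients of `e` by the powers of `B` -/
def J1 (N : ℕ) (E : ℕ → List ℕ → Prop) (e B : ℕ) : Prop :=
  ∀ t, t < N → ∀ q, q < N → E 1 [t, q] → (t = 0 ∧ q = e) ∨ ∃ t', t' < N ∧ ∃ q', q' < N ∧
    ∃ d, d < N ∧ ∃ z, z < N ∧ t = t' + 1 ∧ E 1 [t', q'] ∧ d < B ∧ q * B = z ∧ z + d = q'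

/-- the table of the nodes -/
def J2 (N : ℕ) (E : ℕ → List ℕ → Prop) (K B : ℕ) : Prop :=
  ∀ t, t < N → ∀ k, k < N → ∀ x, x < N → ∀ y, y < N → E 2 [t, k, x, y] →
    ∃ q, q < N ∧ ∃ q1, q1 < N ∧ ∃ z1, z1 < N ∧ ∃ y1, y1 < N ∧ ∃ y2, y2 < N ∧ ∃ y3, y3 < N ∧
    ∃ d, d < N ∧ E 1 [t, q] ∧ q1 * B = z1 ∧ k * K = y1 ∧ y1 + x = y2 ∧ y2 * K = y3 ∧ y3 + y = d ∧
      z1 + d = q ∧ d < B ∧ x < K ∧ y < K

/-- powers of `n` -/
def J3 (N : ℕ) (E : ℕ → List ℕ → Prop) (n : ℕ) : Prop :=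
  ∀ x, x < N → ∀ w, w < N → E 3 [x, w] → (x = 0 ∧ w = 1) ∨ ∃ x', x' < N ∧ ∃ w', w' < N ∧
    x = x' + 1 ∧ E 3 [x', w'] ∧ w' * n = w

/-- digits in base `n` -/
def J4 (N : ℕ) (E : ℕ → List ℕ → Prop) (n : ℕ) : Prop :=
  ∀ a, a < N → ∀ x, x < N → ∀ d, d < N → E 4 [a, x, d] → ∃ w, w < N ∧ ∃ h, h < N ∧ ∃ z, z < N ∧
    ∃ y, y < N ∧ ∃ u, u < N ∧ ∃ l, l < N ∧ E 3 [x, w] ∧ h * n = z ∧ z + d = y ∧ y * w = u ∧
      u + l = a ∧ l < w ∧ d < n

/-- change of a digit -/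
def J5 (N : ℕ) (E : ℕ → List ℕ → Prop) (n : ℕ) : Prop :=
  ∀ a, a < N → ∀ x, x < N → ∀ c, c < N → ∀ a', a' < N → E 5 [a, x, c, a'] →
    ∃ w, w < N ∧ ∃ h, h < N ∧ ∃ z, z < N ∧ ∃ d, d < N ∧ ∃ y, y < N ∧ ∃ u, u < N ∧ ∃ l, l < N ∧
    ∃ y', y' < N ∧ ∃ u', u' < N ∧ E 3 [x, w] ∧ h * n = z ∧ z + d = y ∧ y * w = u ∧ u + l = a ∧
      l < w ∧ d < n ∧ c < n ∧ z + c = y' ∧ y' * w = u' ∧ u' + l = a'

/-- codes of the lists of values -/
def J6 (N : ℕ) (E : ℕ → List ℕ → Prop) (n : ℕ) : Prop :=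
  ∀ t, t < N → ∀ a, a < N → ∀ c, c < N → E 6 [t, a, c] →
    (∃ k, k < N ∧ ∃ x, x < N ∧ ∃ y, y < N ∧ k = 5 ∧ E 2 [t, k, x, y] ∧ c = 0) ∨
    (∃ k, k < N ∧ ∃ x, x < N ∧ ∃ u, u < N ∧ ∃ d, d < N ∧ ∃ c', c' < N ∧ ∃ m, m < N ∧ ∃ z, z < N ∧
      ∃ y, y < N ∧ k = 6 ∧ E 2 [t, k, x, u] ∧ E 4 [a, x, d] ∧ E 6 [u, a, c'] ∧ m = n + 1 ∧
      c' * m = z ∧ z + d = y ∧ c = y + 1)

/-- equality nodes -/
def J7a (N : ℕ) (E : ℕ → List ℕ → Prop) (t a b : ℕ) : Prop :=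
  ∃ k, k < N ∧ ∃ x, x < N ∧ ∃ y, y < N ∧ ∃ d, d < N ∧ ∃ d', d' < N ∧ k = 0 ∧ E 2 [t, k, x, y] ∧
    E 4 [a, x, d] ∧ E 4 [a, y, d'] ∧ ((b = 1 ∧ d = d') ∨ (b = 0 ∧ ¬ d = d'))

/-- negations -/
def J7b (N : ℕ) (E : ℕ → List ℕ → Prop) (t a b : ℕ) : Prop :=
  ∃ k, k < N ∧ ∃ u, u < N ∧ ∃ z, z < N ∧ ∃ b', b' < N ∧ k = 1 ∧ E 2 [t, k, u, z] ∧ E 7 [u, a, b'] ∧
    ((b = 1 ∧ b' = 0) ∨ (b = 0 ∧ b' = 1))

/-- conjunctions -/
def J7c (N : ℕ) (E : ℕ → List ℕ → Prop) (t a b : ℕ) : Prop :=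
  ∃ k, k < N ∧ ∃ u, u < N ∧ ∃ w, w < N ∧ k = 2 ∧ E 2 [t, k, u, w] ∧
    ((b = 1 ∧ (E 7 [u, a, b] ∧ E 7 [w, a, b])) ∨ (b = 0 ∧ (E 7 [u, a, b] ∨ E 7 [w, a, b])))

/-- quantifiers -/
def J7d (N : ℕ) (E : ℕ → List ℕ → Prop) (n t a b : ℕ) : Prop :=
  ∃ k, k < N ∧ ∃ x, x < N ∧ ∃ u, u < N ∧ k = 3 ∧ E 2 [t, k, x, u] ∧
    ((b = 1 ∧ ∀ c, c < N → c < n → ∃ a', a' < N ∧ (E 5 [a, x, c, a'] ∧ E 7 [u, a', b])) ∨
    (b = 0 ∧ ∃ c, c < N ∧ (c < n ∧ ∃ a', a' < N ∧ (E 5 [a, x, c, a'] ∧ E 7 [u, a', b]))))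

/-- atoms -/
def J7e (N : ℕ) (E : ℕ → List ℕ → Prop) (t a b : ℕ) : Prop :=
  ∃ k, k < N ∧ ∃ i, i < N ∧ ∃ u, u < N ∧ ∃ c, c < N ∧ k = 4 ∧ E 2 [t, k, i, u] ∧ E 6 [u, a, c] ∧
    ((b = 1 ∧ E 0 [i, c]) ∨ (b = 0 ∧ ¬ E 0 [i, c]))

/-- truth values -/
def J7 (N : ℕ) (E : ℕ → List ℕ → Prop) (n : ℕ) : Prop :=
  ∀ t, t < N → ∀ a, a < N → ∀ b, b < N → E 7 [t, a, b] →
    J7a N E t a b ∨ J7b N E t a b ∨ J7c N E t a b ∨ J7d N E n t a b ∨ J7e N E t a b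


/-! the variables: `1 = e`, `2 = K`, `3 = B`, `4 = n`, `5 = ρ` -/

theorem fd_J1 : FD (fun N E v => J1 N E (v 1) (v 3)) := by
  have h2 := FD.ex 12 (FD.ex 13 (FD.ex 14 (FD.ex 15 ((FD.succ 12 10).and ((FD.par 1 [12, 13]).and
    ((FD.lt 14 3).and ((FD.mul 11 3 15).and (FD.add 15 14 13))))))))
  have h3 := FD.all 10 (FD.all 11 ((FD.par 1 [10, 11]).imp (((FD.num 0 10).and (FD.eq 11 1)).or h2)))
  refine h3.congr fun N E v hv => ?_
  unfold J1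
  simp only [Function.update_self, Function.update_of_ne, ne_eq,
    not_false_eq_true, OfNat.ofNat_ne_zero, OfNat.zero_ne_ofNat, OfNat.ofNat_ne_one,
    OfNat.one_ne_ofNat, zero_ne_one, one_ne_zero, Nat.reduceEqDiff, List.map_cons, List.map_nil]

theorem fd_J2 : FD (fun N E v => J2 N E (v 2) (v 3)) := by
  have h1 := (FD.add 19 13 20).and ((FD.add 16 20 14).and ((FD.lt 20 3).and
    ((FD.lt 12 2).and (FD.lt 13 2))))
  have h2 := FD.ex 14 (FD.ex 15 (FD.ex 16 (FD.ex 17 (FD.ex 18 (FD.ex 19 (FD.ex 20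
    ((FD.par 1 [10, 14]).and ((FD.mul 15 3 16).and ((FD.mul 11 2 17).and ((FD.add 17 12 18).and
    ((FD.mul 18 2 19).and h1)))))))))))
  have h3 := FD.all 10 (FD.all 11 (FD.all 12 (FD.all 13 ((FD.par 2 [10, 11, 12, 13]).imp h2))))
  refine h3.congr fun N E v hv => ?_
  unfold J2
  simp only [Function.update_self, Function.update_of_ne, ne_eq,
    not_false_eq_true, OfNat.ofNat_ne_zero, OfNat.zero_ne_ofNat, OfNat.ofNat_ne_one,
    OfNat.one_ne_ofNat, zero_ne_one, one_ne_zero, Nat.reduceEqDiff, List.map_cons, List.map_nil]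

theorem fd_J3 : FD (fun N E v => J3 N E (v 4)) := by
  have h2 := FD.ex 12 (FD.ex 13 ((FD.succ 12 10).and ((FD.par 3 [12, 13]).and (FD.mul 13 4 11))))
  have h3 := FD.all 10 (FD.all 11 ((FD.par 3 [10, 11]).imp (((FD.num 0 10).and (FD.num 1 11)).or h2)))
  refine h3.congr fun N E v hv => ?_
  unfold J3
  simp only [Function.update_self, Function.update_of_ne, ne_eq,
    not_false_eq_true, OfNat.ofNat_ne_zero, OfNat.zero_ne_ofNat, OfNat.ofNat_ne_one,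
    OfNat.one_ne_ofNat, zero_ne_one, one_ne_zero, Nat.reduceEqDiff, List.map_cons, List.map_nil]

theorem fd_J4 : FD (fun N E v => J4 N E (v 4)) := by
  have h1 := (FD.mul 16 13 17).and ((FD.add 17 18 10).and ((FD.lt 18 13).and (FD.lt 12 4)))
  have h2 := FD.ex 13 (FD.ex 14 (FD.ex 15 (FD.ex 16 (FD.ex 17 (FD.ex 18
    ((FD.par 3 [11, 13]).and ((FD.mul 14 4 15).and ((FD.add 15 12 16).and h1))))))))
  have h3 := FD.all 10 (FD.all 11 (FD.all 12 ((FD.par 4 [10, 11, 12]).imp h2)))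
  refine h3.congr fun N E v hv => ?_
  unfold J4
  simp only [Function.update_self, Function.update_of_ne, ne_eq,
    not_false_eq_true, OfNat.ofNat_ne_zero, OfNat.zero_ne_ofNat, OfNat.ofNat_ne_one,
    OfNat.one_ne_ofNat, zero_ne_one, one_ne_zero, Nat.reduceEqDiff, List.map_cons, List.map_nil]

theorem fd_J5 : FD (fun N E v => J5 N E (v 4)) := by
  -- 10 a, 11 x, 12 c, 13 a', 14 w, 15 h, 16 z, 17 d, 18 y, 19 u, 20 l, 21 y', 22 u'
  have h1 := (FD.lt 20 14).and ((FD.lt 17 4).and ((FD.lt 12 4).and ((FD.add 16 12 21).and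
    ((FD.mul 21 14 22).and (FD.add 22 20 13)))))
  have h2 := FD.ex 14 (FD.ex 15 (FD.ex 16 (FD.ex 17 (FD.ex 18 (FD.ex 19 (FD.ex 20 (FD.ex 21 (FD.ex 22
    ((FD.par 3 [11, 14]).and ((FD.mul 15 4 16).and ((FD.add 16 17 18).and ((FD.mul 18 14 19).and
    ((FD.add 19 20 10).and h1)))))))))))))
  have h3 := FD.all 10 (FD.all 11 (FD.all 12 (FD.all 13 ((FD.par 5 [10, 11, 12, 13]).imp h2))))
  refine h3.congr fun N E v hv => ?_
  unfold J5
  simp only [Function.update_self, Function.update_of_ne, ne_eq,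
    not_false_eq_true, OfNat.ofNat_ne_zero, OfNat.zero_ne_ofNat, OfNat.ofNat_ne_one,
    OfNat.one_ne_ofNat, zero_ne_one, one_ne_zero, Nat.reduceEqDiff, List.map_cons, List.map_nil]

theorem fd_J6 : FD (fun N E v => J6 N E (v 4)) := by
  -- 10 t, 11 a, 12 c, 13 k, 14 x, 15 u (or y), 16 d, 17 c', 18 m, 19 z, 20 y
  have h1 := FD.ex 13 (FD.ex 14 (FD.ex 15 ((FD.num 5 13).and ((FD.par 2 [10, 13, 14, 15]).and
    (FD.num 0 12)))))
  have h2 := (FD.succ 4 18).and ((FD.mul 17 18 19).and ((FD.add 19 16 20).and (FD.succ 20 12)))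
  have h3 := FD.ex 13 (FD.ex 14 (FD.ex 15 (FD.ex 16 (FD.ex 17 (FD.ex 18 (FD.ex 19 (FD.ex 20
    ((FD.num 6 13).and ((FD.par 2 [10, 13, 14, 15]).and ((FD.par 4 [11, 14, 16]).and
    ((FD.par 6 [15, 11, 17]).and h2)))))))))))
  have h4 := FD.all 10 (FD.all 11 (FD.all 12 ((FD.par 6 [10, 11, 12]).imp (h1.or h3))))
  refine h4.congr fun N E v hv => ?_
  unfold J6
  simp only [Function.update_self, Function.update_of_ne, ne_eq,
    not_false_eq_true, OfNat.ofNat_ne_zero, OfNat.zero_ne_ofNat, OfNat.ofNat_ne_one,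
    OfNat.one_ne_ofNat, zero_ne_one, one_ne_zero, Nat.reduceEqDiff, List.map_cons, List.map_nil]

theorem fd_J7a : FD (fun N E v => J7a N E (v 10) (v 11) (v 12)) := by
  have h1 := ((FD.num 1 12).and (FD.eq 16 17)).or ((FD.num 0 12).and (FD.eq 16 17).not)
  have h2 := FD.ex 13 (FD.ex 14 (FD.ex 15 (FD.ex 16 (FD.ex 17 ((FD.num 0 13).and
    ((FD.par 2 [10, 13, 14, 15]).and ((FD.par 4 [11, 14, 16]).and ((FD.par 4 [11, 15, 17]).and
    h1))))))))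
  refine h2.congr fun N E v hv => ?_
  unfold J7a
  simp only [Function.update_self, Function.update_of_ne, ne_eq,
    not_false_eq_true, OfNat.ofNat_ne_zero, OfNat.zero_ne_ofNat, OfNat.ofNat_ne_one,
    OfNat.one_ne_ofNat, zero_ne_one, one_ne_zero, Nat.reduceEqDiff, List.map_cons, List.map_nil]

theorem fd_J7b : FD (fun N E v => J7b N E (v 10) (v 11) (v 12)) := by
  have h1 := ((FD.num 1 12).and (FD.num 0 16)).or ((FD.num 0 12).and (FD.num 1 16))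
  have h2 := FD.ex 13 (FD.ex 14 (FD.ex 15 (FD.ex 16 ((FD.num 1 13).and
    ((FD.par 2 [10, 13, 14, 15]).and ((FD.par 7 [14, 11, 16]).and h1))))))
  refine h2.congr fun N E v hv => ?_
  unfold J7b
  simp only [Function.update_self, Function.update_of_ne, ne_eq,
    not_false_eq_true, OfNat.ofNat_ne_zero, OfNat.zero_ne_ofNat, OfNat.ofNat_ne_one,
    OfNat.one_ne_ofNat, zero_ne_one, one_ne_zero, Nat.reduceEqDiff, List.map_cons, List.map_nil]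

theorem fd_J7c : FD (fun N E v => J7c N E (v 10) (v 11) (v 12)) := by
  have h1 := ((FD.num 1 12).and ((FD.par 7 [14, 11, 12]).and (FD.par 7 [15, 11, 12]))).or
    ((FD.num 0 12).and ((FD.par 7 [14, 11, 12]).or (FD.par 7 [15, 11, 12])))
  have h2 := FD.ex 13 (FD.ex 14 (FD.ex 15 ((FD.num 2 13).and ((FD.par 2 [10, 13, 14, 15]).and h1))))
  refine h2.congr fun N E v hv => ?_
  unfold J7c
  simp only [Function.update_self, Function.update_of_ne, ne_eq,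
    not_false_eq_true, OfNat.ofNat_ne_zero, OfNat.zero_ne_ofNat, OfNat.ofNat_ne_one,
    OfNat.one_ne_ofNat, zero_ne_one, one_ne_zero, Nat.reduceEqDiff, List.map_cons, List.map_nil]

theorem fd_J7d : FD (fun N E v => J7d N E (v 4) (v 10) (v 11) (v 12)) := by
  have h1 := FD.ex 17 ((FD.par 5 [11, 14, 16, 17]).and (FD.par 7 [15, 17, 12]))
  have h2 := ((FD.num 1 12).and (FD.all 16 ((FD.lt 16 4).imp h1))).or
    ((FD.num 0 12).and (FD.ex 16 ((FD.lt 16 4).and h1)))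
  have h3 := FD.ex 13 (FD.ex 14 (FD.ex 15 ((FD.num 3 13).and ((FD.par 2 [10, 13, 14, 15]).and h2))))
  refine h3.congr fun N E v hv => ?_
  unfold J7d
  simp only [Function.update_self, Function.update_of_ne, ne_eq,
    not_false_eq_true, OfNat.ofNat_ne_zero, OfNat.zero_ne_ofNat, OfNat.ofNat_ne_one,
    OfNat.one_ne_ofNat, zero_ne_one, one_ne_zero, Nat.reduceEqDiff, List.map_cons, List.map_nil]

theorem fd_J7e : FD (fun N E v => J7e N E (v 10) (v 11) (v 12)) := by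
  have h1 := ((FD.num 1 12).and (FD.par 0 [14, 16])).or ((FD.num 0 12).and (FD.par 0 [14, 16]).not)
  have h2 := FD.ex 13 (FD.ex 14 (FD.ex 15 (FD.ex 16 ((FD.num 4 13).and
    ((FD.par 2 [10, 13, 14, 15]).and ((FD.par 6 [15, 11, 16]).and h1))))))
  refine h2.congr fun N E v hv => ?_
  unfold J7e
  simp only [Function.update_self, Function.update_of_ne, ne_eq,
    not_false_eq_true, OfNat.ofNat_ne_zero, OfNat.zero_ne_ofNat, OfNat.ofNat_ne_one,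
    OfNat.one_ne_ofNat, zero_ne_one, one_ne_zero, Nat.reduceEqDiff, List.map_cons, List.map_nil]

theorem fd_J7 : FD (fun N E v => J7 N E (v 4)) := by
  have h1 := fd_J7a.or (fd_J7b.or (fd_J7c.or (fd_J7d.or fd_J7e)))
  have h3 := FD.all 10 (FD.all 11 (FD.all 12 ((FD.par 7 [10, 11, 12]).imp h1)))
  refine h3.congr fun N E v hv => ?_
  unfold J7
  simp only [Function.update_self, Function.update_of_ne, ne_eq,
    not_false_eq_true, OfNat.ofNat_ne_zero, OfNat.zero_ne_ofNat, OfNat.ofNat_ne_one,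
    OfNat.one_ne_ofNat, zero_ne_one, one_ne_zero, Nat.reduceEqDiff, List.map_cons, List.map_nil]

/-- the pairing function -/
def pq (x y : ℕ) : ℕ := (x + y) * (x + y) + y

theorem pq_inj {x y x' y' : ℕ} (h : pq x y = pq x' y') : x = x' ∧ y = y' := by
  unfold pq at h
  have h1 : x + y = x' + y' := by
    rcases lt_trichotomy (x + y) (x' + y') with h1 | h1 | h1
    · have : (x + y + 1) * (x + y + 1) ≤ (x' + y') * (x' + y') := Nat.mul_self_le_mul_self h1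
      nlinarith
    · exact h1
    · have : (x' + y' + 1) * (x' + y' + 1) ≤ (x + y) * (x + y) := Nat.mul_self_le_mul_self h1
      nlinarith
  rw [h1] at h
  omega

theorem left_le_pq (x y : ℕ) : x ≤ pq x y := by
  unfold pq
  nlinarith [Nat.zero_le (x * x), Nat.zero_le (x * y), Nat.le_mul_self x, Nat.zero_le (y * y)]

theorem right_le_pq (x y : ℕ) : y ≤ pq x y := by
  unfold pq
  omega

theorem pq_mono {x x' y y' : ℕ} (hx : x ≤ x') (hy : y ≤ y') : pq x y ≤ pq x' y' := by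
  unfold pq
  have : (x + y) * (x + y) ≤ (x' + y') * (x' + y') := Nat.mul_self_le_mul_self (by omega)
  omega

/-- pairing is definable -/
theorem fd_pq (i j k : ℕ) (hi : i < 10) (hj : j < 10) (hk : k < 10) :
    FD (fun _ _ v => pq (v i) (v j) = v k) := by
  have h2 := FD.ex 10 (FD.ex 11 ((FD.add i j 10).and ((FD.mul 10 10 11).and (FD.add 11 j k))))
  refine h2.congr fun N E v hv => ?_
  have e1 : i ≠ 10 := by omega
  have e2 : i ≠ 11 := by omega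
  have e3 : j ≠ 10 := by omega
  have e4 : j ≠ 11 := by omega
  have e5 : k ≠ 10 := by omega
  have e6 : k ≠ 11 := by omega
  simp only [Function.update_self, Function.update_of_ne, ne_eq, e1, e2, e3, e4, e5, e6,
    not_false_eq_true, Nat.reduceEqDiff]
  have hN := hv k
  constructor
  · rintro ⟨a, _, c, _, rfl, rfl, h⟩
    exact h
  · intro h
    refine ⟨v i + v j, ?_, (v i + v j) * (v i + v j), ?_, rfl, rfl, h⟩
    · unfold pq at h
      have := Nat.le_mul_self (v i + v j)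
      omega
    · unfold pq at h
      omega

/-- the whole test, with the parameters -/
def TU (N : ℕ) (E : ℕ → List ℕ → Prop) (m : ℕ) : Prop :=
  ∃ e, e < N ∧ ∃ K, K < N ∧ ∃ B, B < N ∧ ∃ n, n < N ∧ ∃ r, r < N ∧ ∃ p, p < N ∧
    ∃ g, g < N ∧ ∃ y, y < N ∧ ∃ x, x < N ∧
    (pq e K = g ∧ pq g r = y ∧ pq y n = x ∧ pq x p = m ∧ (∃ K2, K2 < N ∧ (K * K = K2 ∧ K2 * K = B)) ∧
    (J1 N E e B ∧ J2 N E K B ∧ J3 N E n ∧ J4 N E n ∧ J5 N E n ∧ J6 N E n ∧ J7 N E n) ∧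
    ∃ z, z < N ∧ ∃ o, o < N ∧ (z = 0 ∧ o = 1 ∧ E 7 [r, z, o]))

theorem fd_TU : FD (fun N E v => TU N E (v 0)) := by
  -- 6 p, 7 g, 8 y, 9 x
  have h1 := FD.ex 10 (FD.ex 11 ((FD.num 0 10).and ((FD.num 1 11).and (FD.par 7 [5, 10, 11]))))
  have h2 := fd_J1.and (fd_J2.and (fd_J3.and (fd_J4.and (fd_J5.and (fd_J6.and fd_J7)))))
  have h3 := FD.ex 10 ((FD.mul 2 2 10).and (FD.mul 10 2 3))
  have h4 := (fd_pq 1 2 7 (by norm_num) (by norm_num) (by norm_num)).and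
    ((fd_pq 7 5 8 (by norm_num) (by norm_num) (by norm_num)).and
    ((fd_pq 8 4 9 (by norm_num) (by norm_num) (by norm_num)).and
    ((fd_pq 9 6 0 (by norm_num) (by norm_num) (by norm_num)).and (h3.and (h2.and h1)))))
  refine (FD.ex 1 (FD.ex 2 (FD.ex 3 (FD.ex 4 (FD.ex 5 (FD.ex 6 (FD.ex 7 (FD.ex 8 (FD.ex 9
    h4))))))))).congr fun N E v hv => ?_
  unfold TU
  simp only [Function.update_self, Function.update_of_ne, ne_eq,
    not_false_eq_true, OfNat.ofNat_ne_zero, OfNat.zero_ne_ofNat, OfNat.ofNat_ne_one,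
    OfNat.one_ne_ofNat, zero_ne_one, one_ne_zero, Nat.reduceEqDiff, List.map_cons, List.map_nil]

end Pool.Agent.H69.Mt
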