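import Pool.Agent.H69.Mt.UniS

/-!
# Completeness of the truth evaluation
-/

set_option autoImplicit false

namespace Pool.Agent.H69.Mt

open Pool.Agent.H69.Sp

/-- the maximal length of a list of variables -/
def ln : Fm → ℕ
  | .rel _ xs => xs.length
  | .eq _ _ => 0
  | .neg φ => ln φ
  | .and φ ψ => max (ln φ) (ln ψ)
  | .all _ φ => ln φ

/-- set a digit -/
def sd (n a x c : ℕ) : ℕ := (a / n ^ (x + 1) * n + c) * n ^ x + a % n ^ x

theorem sd_old {n a x : ℕ} : (a / n ^ (x + 1) * n + dig n a x) * n ^ x + a % n ^ x = a := by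
  unfold dig
  rw [pow_succ, ← Nat.div_div_eq_div_mul, Nat.div_add_mod', Nat.div_add_mod']

theorem sd_lt {n a x c b : ℕ} (hx : x < b) (ha : a < n ^ b) (hc : c < n) : sd n a x c < n ^ b := by
  unfold sd
  obtain ⟨m, hm⟩ : ∃ m, b = x + 1 + m := ⟨b - x - 1, by omega⟩
  have hn : 0 < n := by omega
  have hpos : 0 < n ^ x := by positivity
  have h1 : a / n ^ (x + 1) < n ^ m := by
    apply Nat.div_lt_of_lt_mul
    rw [← pow_add, ← hm]
    exact ha
  have h2 : a % n ^ x < n ^ x := Nat.mod_lt _ hpos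
  have h3 : a / n ^ (x + 1) * n + c + 1 ≤ n ^ m * n := by
    have : (a / n ^ (x + 1) + 1) * n ≤ n ^ m * n := Nat.mul_le_mul_right _ h1
    nlinarith
  calc (a / n ^ (x + 1) * n + c) * n ^ x + a % n ^ x
      < (a / n ^ (x + 1) * n + c) * n ^ x + n ^ x := by omega
    _ = (a / n ^ (x + 1) * n + c + 1) * n ^ x := by ring
    _ ≤ n ^ m * n * n ^ x := Nat.mul_le_mul_right _ h3
    _ = n ^ b := by rw [hm, pow_add, pow_succ]; ring

theorem dig_sd {n a x c : ℕ} (hc : c < n) :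
    dig n (sd n a x c) = Function.update (dig n a) x c := by
  have hn : 0 < n := by omega
  have hpos : 0 < n ^ x := by positivity
  have h2 : a % n ^ x < n ^ x := Nat.mod_lt _ hpos
  have hd : dig n a x < n := Nat.mod_lt _ hn
  have s1 := dig_split hn rfl (sd_old (n := n) (a := a) (x := x)) h2 hd
  have s2 := dig_split (a := sd n a x c) hn rfl rfl h2 hc
  funext j
  rcases lt_trichotomy j x with hj | rfl | hj
  · rw [Function.update_of_ne (by omega), s2.2.1 j hj, s1.2.1 j hj]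
  · rw [Function.update_self, s2.1]
  · rw [Function.update_of_ne (by omega), s2.2.2 j hj, s1.2.2 j hj]

theorem dig_lt {n : ℕ} (hn : 0 < n) (a x : ℕ) : dig n a x < n := Nat.mod_lt _ hn

/-- the intended witnesses -/
def WW (L : List Nd) (e B n b l : ℕ) (I : ℕ → List ℕ → Prop) (i : ℕ) (z : List ℕ) : Prop :=
  (i = 0 ∧ ∃ j l', z = [j, lc n l'] ∧ (∀ d ∈ l', d < n) ∧ I j l') ∨
  (i = 1 ∧ ∃ t, z = [t, e / B ^ t]) ∨
  (i = 2 ∧ ∃ t k x y, z = [t, k, x, y] ∧ L[t]? = some (k, x, y)) ∨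
  (i = 3 ∧ ∃ x, z = [x, n ^ x] ∧ x ≤ b) ∨
  (i = 4 ∧ ∃ a x, z = [a, x, dig n a x] ∧ x < b ∧ a < n ^ b) ∨
  (i = 5 ∧ ∃ a x c, z = [a, x, c, sd n a x c] ∧ x < b ∧ a < n ^ b ∧ c < n) ∨
  (i = 6 ∧ ∃ t a xs, z = [t, a, lc n (xs.map (dig n a))] ∧ LRep L xs t ∧ (∀ x ∈ xs, x < b) ∧
    a < n ^ b) ∨
  (i = 7 ∧ ∃ t a ψ, ((z = [t, a, 1] ∧ Sat (· < n) I ψ (dig n a)) ∨
    (z = [t, a, 0] ∧ ¬ Sat (· < n) I ψ (dig n a))) ∧ FRep L ψ t ∧ ψ.bd ≤ b ∧ ln ψ ≤ l ∧ a < n ^ b)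

section
variable {L : List Nd} {e K B n b l : ℕ} {I : ℕ → List ℕ → Prop}

theorem W1 {t q : ℕ} : WW L e B n b l I 1 [t, q] ↔ q = e / B ^ t := by simp [WW]
theorem W2 {t k x y : ℕ} : WW L e B n b l I 2 [t, k, x, y] ↔ L[t]? = some (k, x, y) := by
  simp [WW]
theorem W3 {x w : ℕ} : WW L e B n b l I 3 [x, w] ↔ w = n ^ x ∧ x ≤ b := by simp [WW]
theorem W4 {a x d : ℕ} : WW L e B n b l I 4 [a, x, d] ↔ d = dig n a x ∧ x < b ∧ a < n ^ b := by
  simp [WW]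
theorem W5 {a x c a' : ℕ} : WW L e B n b l I 5 [a, x, c, a'] ↔
    a' = sd n a x c ∧ x < b ∧ a < n ^ b ∧ c < n := by simp [WW]
theorem W0 {j c : ℕ} : WW L e B n b l I 0 [j, c] ↔
    ∃ l', c = lc n l' ∧ (∀ d ∈ l', d < n) ∧ I j l' := by simp [WW]
theorem W6 {t a c : ℕ} : WW L e B n b l I 6 [t, a, c] ↔
    ∃ xs : List ℕ, c = lc n (xs.map (dig n a)) ∧ LRep L xs t ∧ (∀ x ∈ xs, x < b) ∧ a < n ^ b := by
  simp [WW]
theorem W7 {t a c : ℕ} : WW L e B n b l I 7 [t, a, c] ↔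
    ∃ ψ : Fm, ((c = 1 ∧ Sat (· < n) I ψ (dig n a)) ∨ (c = 0 ∧ ¬ Sat (· < n) I ψ (dig n a))) ∧
      FRep L ψ t ∧ ψ.bd ≤ b ∧ ln ψ ≤ l ∧ a < n ^ b := by
  constructor
  · rintro (⟨h, _⟩ | ⟨h, _⟩ | ⟨h, _⟩ | ⟨h, _⟩ | ⟨h, _⟩ | ⟨h, _⟩ | ⟨h, _⟩ | ⟨_, t', a', ψ, h1, h2, h3,
      h4, h5⟩)
    any_goals omega
    simp only [List.cons.injEq, and_true] at h1
    rcases h1 with ⟨⟨rfl, rfl, rfl⟩, h6⟩ | ⟨⟨rfl, rfl, rfl⟩, h6⟩
    · exact ⟨ψ, Or.inl ⟨rfl, h6⟩, h2, h3, h4, h5⟩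
    · exact ⟨ψ, Or.inr ⟨rfl, h6⟩, h2, h3, h4, h5⟩
  · rintro ⟨ψ, h1, h2, h3, h4, h5⟩
    refine Or.inr (Or.inr (Or.inr (Or.inr (Or.inr (Or.inr (Or.inr ⟨rfl, t, a, ψ, ?_, h2, h3, h4,
      h5⟩))))))
    rcases h1 with ⟨rfl, h6⟩ | ⟨rfl, h6⟩
    · exact Or.inl ⟨rfl, h6⟩
    · exact Or.inr ⟨rfl, h6⟩

theorem W_J1 {N : ℕ} (he : e < N) (hB : 0 < B) (hBN : B < N) :
    J1 N (WW L e B n b l I) e B := by
  intro t ht q hq h
  rw [W1] at h
  cases t with
  | zero => left; exact ⟨rfl, by simpa using h⟩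
  | succ t =>
    right
    have h1 : e / B ^ t ≤ e := Nat.div_le_self _ _
    have h2 : e / B ^ t % B < B := Nat.mod_lt _ hB
    have h3 : q = e / B ^ t / B := by rw [h, pow_succ, Nat.div_div_eq_div_mul]
    have h4 : q * B + e / B ^ t % B = e / B ^ t := by rw [h3, Nat.div_add_mod']
    exact ⟨t, by omega, e / B ^ t, by omega, e / B ^ t % B, by omega, q * B, by omega, rfl,
      W1.2 rfl, h2, rfl, h4⟩

theorem W_J2 {N : ℕ} (he : e < N) (hBN : B < N) (hKB : B = K * K * K) (hL : Tab L e K B) :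
    J2 N (WW L e B n b l I) K B := by
  intro t ht k hk x hx y hy h
  rw [W2] at h
  obtain ⟨h1, h2, h3, h4⟩ := hL t k x y h
  have hK : 0 < K := by omega
  have hB : 0 < B := by rw [hKB]; positivity
  set q := e / B ^ t with hq
  have h5 : q ≤ e := Nat.div_le_self _ _
  have h6 : q % B < B := Nat.mod_lt _ hB
  have h7 : q / B * B + q % B = q := Nat.div_add_mod' _ _
  rw [h1] at h6 h7
  have h8 : k * K + x ≤ (k * K + x) * K := Nat.le_mul_of_pos_right _ hK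
  exact ⟨q, by omega, q / B, by have := Nat.div_le_self q B; omega, q / B * B, by omega, k * K,
    by omega, k * K + x, by omega, (k * K + x) * K, by omega, (k * K + x) * K + y, by omega,
    W1.2 rfl, rfl, rfl, rfl, rfl, rfl, h7, h6, h3, h4⟩

theorem W_J3 {N : ℕ} (hn : 0 < n) : J3 N (WW L e B n b l I) n := by
  intro x hx w hw h
  rw [W3] at h
  obtain ⟨h1, h2⟩ := h
  cases x with
  | zero => left; exact ⟨rfl, by simpa using h1⟩
  | succ x =>
    right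
    have h3 : n ^ x ≤ n ^ (x + 1) := Nat.pow_le_pow_right hn (by omega)
    exact ⟨x, by omega, n ^ x, by omega, rfl, W3.2 ⟨rfl, by omega⟩, by rw [h1, pow_succ]⟩

theorem bounds {N a x c : ℕ} (hn : 0 < n) (hN : n ^ b < N) (hx : x < b)
    (h : (a / n ^ (x + 1) * n + c) * n ^ x + a % n ^ x < n ^ b) :
    n ^ x < N ∧ a / n ^ (x + 1) < N ∧ a / n ^ (x + 1) * n < N ∧ a / n ^ (x + 1) * n + c < N ∧
      (a / n ^ (x + 1) * n + c) * n ^ x < N ∧ a % n ^ x < N := by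
  have h1 : n ^ x ≤ n ^ b := Nat.pow_le_pow_right hn hx.le
  have h2 : 0 < n ^ x := by positivity
  have h3 : a / n ^ (x + 1) * n + c ≤ (a / n ^ (x + 1) * n + c) * n ^ x :=
    Nat.le_mul_of_pos_right _ h2
  have h4 : a / n ^ (x + 1) ≤ a / n ^ (x + 1) * n := Nat.le_mul_of_pos_right _ hn
  have h5 : a % n ^ x < n ^ x := Nat.mod_lt _ h2
  have h6 : (a / n ^ (x + 1) * n + c) * n ^ x < n ^ b := lt_of_le_of_lt (Nat.le_add_right _ _) h
  have h7 : (a / n ^ (x + 1) * n + c) * n ^ x < N := h6.trans hN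
  have h8 : a / n ^ (x + 1) * n + c < N := lt_of_le_of_lt h3 h7
  have h9 : a / n ^ (x + 1) * n < N := lt_of_le_of_lt (Nat.le_add_right _ _) h8
  exact ⟨lt_of_le_of_lt h1 hN, lt_of_le_of_lt h4 h9, h9, h8, h7, h5.trans (lt_of_le_of_lt h1 hN)⟩

theorem W_J4 {N : ℕ} (hn : 0 < n) (hN : n ^ b < N) : J4 N (WW L e B n b l I) n := by
  intro a ha x hx d hd h
  rw [W4] at h
  obtain ⟨rfl, h1, h2⟩ := h
  have h3 := sd_old (n := n) (a := a) (x := x)
  obtain ⟨b1, b2, b3, b4, b5, b6⟩ := bounds (c := dig n a x) hn hN h1 (by rw [h3]; exact h2)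
  exact ⟨n ^ x, b1, a / n ^ (x + 1), b2, a / n ^ (x + 1) * n, b3, _, b4, _, b5, a % n ^ x, b6,
    W3.2 ⟨rfl, h1.le⟩, rfl, rfl, rfl, h3, Nat.mod_lt _ (by positivity), dig_lt hn _ _⟩

theorem W_J5 {N : ℕ} (hn : 0 < n) (hN : n ^ b < N) : J5 N (WW L e B n b l I) n := by
  intro a ha x hx c hc a' ha' h
  rw [W5] at h
  obtain ⟨rfl, h1, h2, h4⟩ := h
  have h3 := sd_old (n := n) (a := a) (x := x)
  obtain ⟨b1, b2, b3, b4, b5, b6⟩ := bounds (c := dig n a x) hn hN h1 (by rw [h3]; exact h2)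
  obtain ⟨_, _, _, b7, b8, _⟩ := bounds (c := c) hn hN h1 (sd_lt h1 h2 h4)
  have h5 : n < N := by
    have : n ^ 1 ≤ n ^ b := Nat.pow_le_pow_right hn (by omega)
    rw [pow_one] at this
    omega
  have h6 := dig_lt hn a x
  exact ⟨n ^ x, b1, a / n ^ (x + 1), b2, a / n ^ (x + 1) * n, b3, dig n a x, by omega, _, b4, _, b5,
    a % n ^ x, b6, _, b7, _, b8, W3.2 ⟨rfl, h1.le⟩, rfl, rfl, rfl, h3,
    Nat.mod_lt _ (by positivity), h6, h4, rfl, rfl, rfl⟩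

theorem LRep_lt {xs : List ℕ} {t : ℕ} (h : LRep L xs t) : t < L.length := by
  cases xs with
  | nil => exact (List.getElem?_eq_some_iff.1 h).1
  | cons x xs =>
    obtain ⟨u, h1, _⟩ := h
    exact (List.getElem?_eq_some_iff.1 h1).1

theorem FRep_lt {ψ : Fm} {t : ℕ} (h : FRep L ψ t) : t < L.length := by
  cases ψ with
  | eq x y => exact (List.getElem?_eq_some_iff.1 h).1
  | neg φ => obtain ⟨u, h1, _⟩ := h; exact (List.getElem?_eq_some_iff.1 h1).1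
  | and φ ψ => obtain ⟨u, w, h1, _⟩ := h; exact (List.getElem?_eq_some_iff.1 h1).1
  | all x φ => obtain ⟨u, h1, _⟩ := h; exact (List.getElem?_eq_some_iff.1 h1).1
  | rel i xs => obtain ⟨u, h1, _⟩ := h; exact (List.getElem?_eq_some_iff.1 h1).1

theorem W_J6 {N : ℕ} (hn : 0 < n) (hbN : b < N) (hnN : n + 1 < N) (h7 : 7 < N)
    (hLN : L.length ≤ N) : J6 N (WW L e B n b l I) n := by
  intro t ht a ha c hc h
  rw [W6] at h
  obtain ⟨xs, rfl, h1, h2, h3⟩ := h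
  cases xs with
  | nil =>
    left
    exact ⟨5, by omega, 0, by omega, 0, by omega, rfl, W2.2 h1, rfl⟩
  | cons x xs =>
    right
    obtain ⟨u, h4, h5⟩ := h1
    have h6 : x < b := h2 x (by simp)
    have h8 := LRep_lt h5
    have h9 := dig_lt hn a x
    rw [List.map_cons, lc] at hc
    have h10 : lc n (xs.map (dig n a)) ≤ lc n (xs.map (dig n a)) * (n + 1) :=
      Nat.le_mul_of_pos_right _ (by omega)
    exact ⟨6, by omega, x, by omega, u, by omega, dig n a x, by omega, lc n (xs.map (dig n a)),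
      by omega, n + 1, hnN, lc n (xs.map (dig n a)) * (n + 1), by omega,
      lc n (xs.map (dig n a)) * (n + 1) + dig n a x, by omega, rfl, W2.2 h4, W4.2 ⟨rfl, h6, h3⟩,
      W6.2 ⟨xs, rfl, h5, fun y hy => h2 y (by simp [hy]), h3⟩, rfl, rfl, rfl, rfl⟩

theorem W_J7 {N : ℕ} (hn : 0 < n) (hN : n ^ b < N) (hl : (n + 1) ^ l ≤ N) (h7 : 7 < N)
    (hnN : n < N) (hLe : ∀ t k x y : ℕ, L[t]? = some (k, x, y) → x < N ∧ y < N) :
    J7 N (WW L e B n b l I) n := by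
  intro t ht a ha c hc h
  rw [W7] at h
  obtain ⟨ψ, h1, h2, h3, h4, h5⟩ := h
  have hdig : ∀ x, dig n a x < N := fun x => lt_trans (dig_lt hn a x) hnN
  cases ψ with
  | eq x y =>
    left
    unfold Fm.bd at h3
    obtain ⟨b1, b2⟩ := hLe _ _ _ _ h2
    refine ⟨0, by omega, x, b1, y, b2, dig n a x, hdig x, dig n a y, hdig y, rfl, W2.2 h2,
      W4.2 ⟨rfl, by omega, h5⟩, W4.2 ⟨rfl, by omega, h5⟩, ?_⟩
    exact h1
  | neg φ =>
    right; left
    obtain ⟨u, h6, h8⟩ := h2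
    obtain ⟨b1, b2⟩ := hLe _ _ _ _ h6
    by_cases hs : Sat (· < n) I φ (dig n a)
    · refine ⟨1, by omega, u, b1, 0, b2, 1, by omega, rfl, W2.2 h6,
        W7.2 ⟨φ, Or.inl ⟨rfl, hs⟩, h8, h3, h4, h5⟩, ?_⟩
      rcases h1 with ⟨_, h1⟩ | ⟨h1, _⟩
      · exact absurd hs h1
      · exact Or.inr ⟨h1, rfl⟩
    · refine ⟨1, by omega, u, b1, 0, b2, 0, by omega, rfl, W2.2 h6,
        W7.2 ⟨φ, Or.inr ⟨rfl, hs⟩, h8, h3, h4, h5⟩, ?_⟩
      rcases h1 with ⟨h1, _⟩ | ⟨_, h1⟩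
      · exact Or.inl ⟨h1, rfl⟩
      · exact absurd hs h1
  | and φ ψ =>
    right; right; left
    obtain ⟨u, w, h6, h8, h9⟩ := h2
    obtain ⟨b1, b2⟩ := hLe _ _ _ _ h6
    unfold Fm.bd at h3
    unfold ln at h4
    refine ⟨2, by omega, u, b1, w, b2, rfl, W2.2 h6, ?_⟩
    rcases h1 with ⟨rfl, h1⟩ | ⟨rfl, h1⟩
    · exact Or.inl ⟨rfl, W7.2 ⟨φ, Or.inl ⟨rfl, h1.1⟩, h8, by omega, by omega, h5⟩,
        W7.2 ⟨ψ, Or.inl ⟨rfl, h1.2⟩, h9, by omega, by omega, h5⟩⟩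
    · refine Or.inr ⟨rfl, ?_⟩
      rw [sat_and, not_and_or] at h1
      rcases h1 with h1 | h1
      · exact Or.inl (W7.2 ⟨φ, Or.inr ⟨rfl, h1⟩, h8, by omega, by omega, h5⟩)
      · exact Or.inr (W7.2 ⟨ψ, Or.inr ⟨rfl, h1⟩, h9, by omega, by omega, h5⟩)
  | all x φ =>
    right; right; right; left
    obtain ⟨u, h6, h8⟩ := h2
    obtain ⟨b1, b2⟩ := hLe _ _ _ _ h6
    unfold Fm.bd at h3
    refine ⟨3, by omega, x, b1, u, b2, rfl, W2.2 h6, ?_⟩
    have hx : x < b := by omega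
    rcases h1 with ⟨rfl, h1⟩ | ⟨rfl, h1⟩
    · refine Or.inl ⟨rfl, fun c _ hc' => ⟨sd n a x c, lt_trans (sd_lt hx h5 hc') hN,
        W5.2 ⟨rfl, hx, h5, hc'⟩, W7.2 ⟨φ, Or.inl ⟨rfl, ?_⟩, h8, by omega, h4, sd_lt hx h5 hc'⟩⟩⟩
      rw [dig_sd hc']
      exact h1 c hc'
    · rw [sat_all] at h1
      push Not at h1
      obtain ⟨c, hc', h1⟩ := h1
      refine Or.inr ⟨rfl, c, by omega, hc', sd n a x c, lt_trans (sd_lt hx h5 hc') hN,
        W5.2 ⟨rfl, hx, h5, hc'⟩, W7.2 ⟨φ, Or.inr ⟨rfl, ?_⟩, h8, by omega, h4, sd_lt hx h5 hc'⟩⟩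
      rw [dig_sd hc']
      exact h1
  | rel i xs =>
    right; right; right; right
    obtain ⟨u, h6, h8⟩ := h2
    obtain ⟨b1, b2⟩ := hLe _ _ _ _ h6
    have hd : ∀ d ∈ xs.map (dig n a), d < n := by
      intro d hd
      obtain ⟨x, _, rfl⟩ := List.mem_map.1 hd
      exact dig_lt hn a x
    have hlc : lc n (xs.map (dig n a)) < N := by
      have h9 := lc_lt hd
      rw [List.length_map] at h9
      have h10 : (n + 1) ^ xs.length ≤ (n + 1) ^ l := Nat.pow_le_pow_right (by omega) h4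
      omega
    refine ⟨4, by omega, i, b1, u, b2, lc n (xs.map (dig n a)), hlc, rfl, W2.2 h6,
      W6.2 ⟨xs, rfl, h8, fun x hx => ?_, h5⟩, ?_⟩
    · have := le_foldr_max hx
      unfold Fm.bd at h3
      omega
    · have h9 : WW L e B n b l I 0 [i, lc n (xs.map (dig n a))] ↔ I i (xs.map (dig n a)) := by
        rw [W0]
        constructor
        · rintro ⟨l', h9, h10, h11⟩
          rwa [lc_inj hd h10 h9]
        · intro h; exact ⟨_, rfl, hd, h⟩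
      rw [h9]
      exact h1

end

/-! ### the table of a formula -/

theorem LRep_mono {L L' : List Nd} (h : L <+: L') : ∀ {xs : List ℕ} {t : ℕ}, LRep L xs t →
    LRep L' xs t := by
  have key : ∀ {t : ℕ} {a : Nd}, L[t]? = some a → L'[t]? = some a := by
    intro t a ht
    obtain ⟨M, rfl⟩ := h
    rw [List.getElem?_append_left (List.getElem?_eq_some_iff.1 ht).1, ht]
  intro xs
  induction xs with
  | nil => intro t ht; exact key ht
  | cons x xs ih =>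
    rintro t ⟨u, h1, h2⟩
    exact ⟨u, key h1, ih h2⟩

theorem FRep_mono {L L' : List Nd} (h : L <+: L') : ∀ {ψ : Fm} {t : ℕ}, FRep L ψ t →
    FRep L' ψ t := by
  have key : ∀ {t : ℕ} {a : Nd}, L[t]? = some a → L'[t]? = some a := by
    intro t a ht
    obtain ⟨M, rfl⟩ := h
    rw [List.getElem?_append_left (List.getElem?_eq_some_iff.1 ht).1, ht]
  intro ψ
  induction ψ with
  | eq x y => intro t ht; exact key ht
  | neg φ ih => rintro t ⟨u, h1, h2⟩; exact ⟨u, key h1, ih h2⟩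
  | and φ ψ ih1 ih2 => rintro t ⟨u, w, h1, h2, h3⟩; exact ⟨u, w, key h1, ih1 h2, ih2 h3⟩
  | all x φ ih => rintro t ⟨u, h1, h2⟩; exact ⟨u, key h1, ih h2⟩
  | rel i xs => rintro t ⟨u, h1, h2⟩; exact ⟨u, key h1, LRep_mono h h2⟩

theorem last_eq (L : List Nd) (a : Nd) : (L ++ [a])[L.length]? = some a := by simp

theorem LRep_exists (xs : List ℕ) : ∀ L : List Nd, ∃ L', L <+: L' ∧ ∃ t, LRep L' xs t := by
  induction xs with
  | nil => intro L; exact ⟨L ++ [(5, 0, 0)], ⟨_, rfl⟩, L.length, last_eq _ _⟩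
  | cons x xs ih =>
    intro L
    obtain ⟨L', h1, u, h2⟩ := ih L
    exact ⟨L' ++ [(6, x, u)], h1.trans ⟨_, rfl⟩, L'.length, u, last_eq _ _, LRep_mono ⟨_, rfl⟩ h2⟩

theorem FRep_exists (ψ : Fm) : ∀ L : List Nd, ∃ L', L <+: L' ∧ ∃ t, FRep L' ψ t := by
  induction ψ with
  | eq x y => intro L; exact ⟨L ++ [(0, x, y)], ⟨_, rfl⟩, L.length, last_eq _ _⟩
  | neg φ ih =>
    intro L
    obtain ⟨L', h1, u, h2⟩ := ih L
    exact ⟨L' ++ [(1, u, 0)], h1.trans ⟨_, rfl⟩, L'.length, u, last_eq _ _, FRep_mono ⟨_, rfl⟩ h2⟩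
  | and φ ψ ih1 ih2 =>
    intro L
    obtain ⟨L', h1, u, h2⟩ := ih1 L
    obtain ⟨L'', h3, w, h4⟩ := ih2 L'
    exact ⟨L'' ++ [(2, u, w)], (h1.trans h3).trans ⟨_, rfl⟩, L''.length, u, w, last_eq _ _,
      FRep_mono (h3.trans ⟨_, rfl⟩) h2, FRep_mono ⟨_, rfl⟩ h4⟩
  | all x φ ih =>
    intro L
    obtain ⟨L', h1, u, h2⟩ := ih L
    exact ⟨L' ++ [(3, x, u)], h1.trans ⟨_, rfl⟩, L'.length, u, last_eq _ _, FRep_mono ⟨_, rfl⟩ h2⟩
  | rel i xs =>
    intro L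
    obtain ⟨L', h1, u, h2⟩ := LRep_exists xs L
    exact ⟨L' ++ [(4, i, u)], h1.trans ⟨_, rfl⟩, L'.length, u, last_eq _ _, LRep_mono ⟨_, rfl⟩ h2⟩

/-- a bound for the entries -/
theorem entries_bound (L : List Nd) : ∃ K, 6 < K ∧ ∀ t k x y : ℕ, L[t]? = some (k, x, y) →
    k < K ∧ x < K ∧ y < K := by
  induction L with
  | nil => exact ⟨7, by norm_num, fun t k x y h => by simp at h⟩
  | cons a L ih =>
    obtain ⟨K, h1, h2⟩ := ih
    refine ⟨K + a.1 + a.2.1 + a.2.2 + 1, by omega, fun t k x y h => ?_⟩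
    cases t with
    | zero =>
      simp only [List.getElem?_cons_zero, Option.some.injEq] at h
      subst h
      dsimp only
      omega
    | succ t =>
      rw [List.getElem?_cons_succ] at h
      have := h2 t k x y h
      omega

/-- the code of a table -/
theorem tab_exists (L : List Nd) {K : ℕ} (hK : ∀ t k x y : ℕ, L[t]? = some (k, x, y) →
    k < K ∧ x < K ∧ y < K) : ∃ e, Tab L e K (K * K * K) := by
  induction L with
  | nil => exact ⟨0, fun t k x y h => by simp at h⟩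
  | cons a L ih =>
    obtain ⟨e, he⟩ := ih fun t k x y h => hK (t + 1) k x y (by rw [List.getElem?_cons_succ]; exact h)
    obtain ⟨k, x, y⟩ := a
    obtain ⟨h1, h2, h3⟩ := hK 0 k x y (by simp)
    have hlt : (k * K + x) * K + y < K * K * K := by
      have h4 : (k + 1) * K ≤ K * K := Nat.mul_le_mul_right _ h1
      have h5 : (k * K + x + 1) * K ≤ K * K * K := Nat.mul_le_mul_right _ (by nlinarith)
      nlinarith
    refine ⟨e * (K * K * K) + ((k * K + x) * K + y), fun t k' x' y' h => ?_⟩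
    cases t with
    | zero =>
      simp only [List.getElem?_cons_zero, Option.some.injEq, Prod.mk.injEq] at h
      obtain ⟨rfl, rfl, rfl⟩ := h
      refine ⟨?_, h1, h2, h3⟩
      rw [pow_zero, Nat.div_one, mul_comm e, Nat.mul_add_mod, Nat.mod_eq_of_lt hlt]
    | succ t =>
      rw [List.getElem?_cons_succ] at h
      have h6 := he t k' x' y' h
      refine ⟨?_, h6.2⟩
      rw [pow_succ', ← Nat.div_div_eq_div_mul, mul_comm e, Nat.mul_add_div (by omega),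
        Nat.div_eq_of_lt hlt, add_zero]
      exact h6.1

end Pool.Agent.H69.Mt
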