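import Pool.Agent.H69.Mt.UniC

/-!
# The universal spectrum
-/

set_option autoImplicit false

namespace Pool.Agent.H69.Mt

open Pool.Agent.H69.Sp

/-- the universal set -/
def UU : Set ℕ := {m | 2 ≤ m ∧ ∃ E, TU (m ^ 8) E m}

theorem UU_isSpectrum : IsSpectrum UU := by
  refine wrap (P := fun N E v => TU N E (v 0)) fd_TU.ed (fun h => by have := h.1; omega)
    fun n hn => ?_
  simp only [Function.update_self]
  exact ⟨fun h => h.2, fun h => ⟨hn, h⟩⟩

theorem dig_zero (n : ℕ) : dig n 0 = fun _ => 0 := by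
  funext x
  simp [dig]

/-- the instances -/
theorem instance_iff {S : Set ℕ} (hS : IsSpectrum S) : ∃ c t : ℕ, ∀ t', t ≤ t' → ∀ n, 2 ≤ n →
    (pq (pq c n) (n ^ 2 ^ t') ∈ UU ↔ n ∈ S) := by
  obtain ⟨φ, _, hd⟩ := hS.exists_fm
  obtain ⟨L, _, ρ, hρ⟩ := FRep_exists φ []
  obtain ⟨K0, hK0, hK1⟩ := entries_bound L
  set K := K0 + L.length + φ.bd + 1 with hK
  obtain ⟨e, he⟩ := tab_exists (K := K) L fun t k x y h => by
    have := hK1 t k x y h
    omega
  refine ⟨pq (pq e K) ρ, φ.bd + 2 * ln φ, fun t' ht n hn => ?_⟩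
  set p := n ^ 2 ^ t' with hp
  have hpow : φ.bd + 2 * ln φ ≤ 2 ^ t' := by
    have : t' < 2 ^ t' := Nat.lt_two_pow_self
    omega
  have hp1 : n ^ φ.bd ≤ p := Nat.pow_le_pow_right (by omega) (by omega)
  have hp2 : (n + 1) ^ ln φ ≤ p := by
    calc (n + 1) ^ ln φ ≤ (n ^ 2) ^ ln φ := Nat.pow_le_pow_left (by nlinarith) _
      _ = n ^ (2 * ln φ) := by rw [← pow_mul]
      _ ≤ p := Nat.pow_le_pow_right (by omega) (by omega)
  set g := pq e K with hg
  set y := pq g ρ with hy
  set x := pq y n with hx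
  set m := pq x p with hm
  have m1 : e ≤ g := left_le_pq _ _
  have m2 : K ≤ g := right_le_pq _ _
  have m3 : g ≤ y := left_le_pq _ _
  have m4 : ρ ≤ y := right_le_pq _ _
  have m5 : y ≤ x := left_le_pq _ _
  have m6 : n ≤ x := right_le_pq _ _
  have m7 : x ≤ m := left_le_pq _ _
  have m8 : p ≤ m := right_le_pq _ _
  have m9 : m < m ^ 8 := by
    calc m = m ^ 1 := (pow_one m).symm
      _ < m ^ 8 := Nat.pow_lt_pow_right (by omega) (by norm_num)
  have m12 : m + 1 < m ^ 8 := by
    have h1 : 2 * m ≤ m ^ 2 := by nlinarith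
    have h2 : m ^ 2 < m ^ 8 := Nat.pow_lt_pow_right (by omega) (by norm_num)
    omega
  have m10 : K * K < m ^ 8 := by
    calc K * K ≤ m * m := Nat.mul_le_mul (by omega) (by omega)
      _ = m ^ 2 := by ring
      _ < m ^ 8 := Nat.pow_lt_pow_right (by omega) (by norm_num)
  have m11 : K * K * K < m ^ 8 := by
    calc K * K * K ≤ m * m * m := Nat.mul_le_mul (Nat.mul_le_mul (by omega) (by omega)) (by omega)
      _ = m ^ 3 := by ring
      _ < m ^ 8 := Nat.pow_lt_pow_right (by omega) (by norm_num)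
  have hbpos : 0 < n ^ φ.bd := by positivity
  constructor
  · rintro ⟨_, E, e', he', K', hK', B', hB', n', hn', r', hr', p', hp', g', hg', y', hy', x', hx',
      ⟨h1, h2, h3, h4, ⟨K2, hK2, h5, h6⟩, ⟨j1, j2, j3, j4, j5, j6, j7⟩, z, hz, o, ho, rfl, rfl,
        h7⟩⟩
    obtain ⟨rfl, rfl⟩ := pq_inj h4
    obtain ⟨rfl, rfl⟩ := pq_inj h3
    obtain ⟨rfl, rfl⟩ := pq_inj h2
    obtain ⟨rfl, rfl⟩ := pq_inj h1
    subst h5
    subst h6
    have h8 := j7.spec j1 j2 j3 j4 j5 j6 he hn' φ r' hρ hr' 0 hz 1 ho h7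
    rcases h8 with ⟨_, h8⟩ | ⟨h8, _⟩
    · rw [dig_zero] at h8
      exact (hd n').2 ⟨by omega, _, h8⟩
    · omega
  · intro h
    obtain ⟨_, I, hI⟩ := (hd n).1 h
    refine ⟨by omega, WW L e (K * K * K) n φ.bd (ln φ) I, e, by omega, K, by omega, K * K * K,
      m11, n, by omega, ρ, by omega, p, by omega, g, by omega, y, by omega, x, by omega, rfl, rfl,
      rfl, rfl, ⟨K * K, m10, rfl, rfl⟩, ⟨?_, ?_, ?_, ?_, ?_, ?_, ?_⟩, 0, by omega, 1, by omega, rfl,
      rfl, ?_⟩
    · exact W_J1 (by omega) (by positivity) m11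
    · exact W_J2 (by omega) m11 rfl he
    · exact W_J3 (by omega)
    · exact W_J4 (by omega) (by omega)
    · exact W_J5 (by omega) (by omega)
    · exact W_J6 (by omega) (by omega) (by omega) (by omega) (by omega)
    · exact W_J7 (by omega) (by omega) (by omega) (by omega) (by omega) fun t k x y h => by
        have := hK1 t k x y h
        omega
    · exact W7.2 ⟨φ, Or.inl ⟨rfl, by rw [dig_zero]; exact hI⟩, hρ, le_rfl, le_rfl, hbpos⟩

/-- powers are definable -/
theorem fd_pw (t : ℕ) : ∀ x y : ℕ, FD (fun _ _ v => v x ^ 2 ^ t = v y) := by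
  induction t with
  | zero =>
    intro x y
    refine (FD.eq x y).congr fun N E v hv => ?_
    rw [pow_zero, pow_one]
  | succ t ih =>
    intro x y
    refine (FD.ex (x + y + 1) ((ih x (x + y + 1)).and
      (FD.mul (x + y + 1) (x + y + 1) y))).congr fun N E v hv => ?_
    have e1 : x ≠ x + y + 1 := by omega
    have e2 : y ≠ x + y + 1 := by omega
    simp only [Function.update_self, Function.update_of_ne e1, Function.update_of_ne e2]
    constructor
    · rintro ⟨a, _, rfl, h⟩
      rw [← h, pow_succ, pow_mul, pow_two]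
    · intro h
      rw [pow_succ, pow_mul, pow_two] at h
      have := hv y
      have h2 := Nat.le_mul_self (v x ^ 2 ^ t)
      exact ⟨v x ^ 2 ^ t, by omega, rfl, h⟩

/-- spectra are closed under roots -/
theorem root_isSpectrum {S : Set ℕ} (hS : IsSpectrum S) (t : ℕ) :
    IsSpectrum {n | n ^ 2 ^ t ∈ S} := by
  induction t with
  | zero => simpa using hS
  | succ t ih =>
    have := sq_isSpectrum ih
    convert this using 1
    ext n
    simp only [Set.mem_ofPred_eq]
    rw [pow_succ, mul_comm, pow_mul, pow_two]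

/-- the universal spectrum decides Asser's question -/
theorem universal {S : Set ℕ} (hS : IsSpectrum S) (hU : IsSpectrum (posCompl UU)) :
    IsSpectrum (posCompl S) := by
  obtain ⟨c, t0, h⟩ := instance_iff hS
  set t := t0 + c + 3 with ht
  have key := h t (by omega)
  have hinj : ∀ a b : ℕ, a ^ 2 ^ t = b ^ 2 ^ t → a = b := fun a b hab =>
    Nat.pow_left_injective (Nat.two_pow_pos t).ne' hab
  -- the padded version
  have h1 : IsSpectrum {m | ∃ n, n ^ 2 ^ t = m ∧ n ∈ posCompl S} := by
    refine wrap (P := fun N E v => ∃ n, n < N ∧ (n ^ 2 ^ t = v 0 ∧ ∃ d, d < N ∧ (d = c ∧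
      ∃ x, x < N ∧ (pq d n = x ∧ ∃ z, z < N ∧ (pq x (v 0) = z ∧ z ∈ posCompl UU))))) ?_ ?_
      fun m hm => ?_
    · refine (ED.ex 1 ((fd_pw t 1 0).ed.and (ED.ex 2 ((FD.num c 2).ed.and (ED.ex 3
        ((fd_pq 2 1 3 (by norm_num) (by norm_num) (by norm_num)).ed.and (ED.ex 4
        ((fd_pq 3 0 4 (by norm_num) (by norm_num) (by norm_num)).ed.and
          (mem_ed hU 4))))))))).congr fun N E v hv => ?_
      simp only [Function.update_self, Function.update_of_ne, ne_eq,
        not_false_eq_true, OfNat.ofNat_ne_zero, OfNat.zero_ne_ofNat, OfNat.ofNat_ne_one,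
        OfNat.one_ne_ofNat, zero_ne_one, one_ne_zero, Nat.reduceEqDiff, List.map_cons, List.map_nil]
    · rintro ⟨n, h2, h3, _⟩
      have : 0 < n ^ 2 ^ t := by positivity
      omega
    · simp only [Function.update_self]
      have hn2 : ∀ n : ℕ, n ^ 2 ^ t = m → 2 ≤ n := by
        intro n hn
        by_contra hc
        have h3 : 2 ^ t ≠ 0 := by positivity
        interval_cases n
        · rw [zero_pow h3] at hn; omega
        · rw [one_pow] at hn; omega
      constructor
      · rintro ⟨n, h2, h3, h4⟩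
        have h5 := hn2 n h2
        have h6 : n * (c + 3) ≤ m := by
          rw [← h2]
          calc n * (c + 3) ≤ n * 2 ^ (c + 2) :=
                Nat.mul_le_mul_left _ (by have := @Nat.lt_two_pow_self (c + 2); omega)
            _ ≤ n * n ^ (c + 2) := Nat.mul_le_mul_left _ (Nat.pow_le_pow_left h5 _)
            _ = n ^ (c + 3) := by ring
            _ ≤ n ^ 2 ^ t := Nat.pow_le_pow_right (by omega)
                (by have := @Nat.lt_two_pow_self t; omega)
        have h7 : c + n ≤ m := by nlinarith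
        have h8 : 6 ≤ m := by nlinarith
        have h9 : m < m ^ 8 := by
          calc m = m ^ 1 := (pow_one m).symm
            _ < m ^ 8 := Nat.pow_lt_pow_right (by omega) (by norm_num)
        have h10 : pq c n ≤ m ^ 3 := by
          unfold pq
          calc (c + n) * (c + n) + n ≤ m * m + m * m := Nat.add_le_add (Nat.mul_le_mul h7 h7)
                (by nlinarith)
            _ = 2 * m ^ 2 := by ring
            _ ≤ m * m ^ 2 := Nat.mul_le_mul_right _ (by omega)
            _ = m ^ 3 := by ring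
        have h11 : pq (pq c n) m < m ^ 8 := by
          have e1 : m ≤ m ^ 3 := Nat.le_self_pow (by norm_num) m
          have e2 : m ≤ m ^ 6 := Nat.le_self_pow (by norm_num) m
          have e3 : 0 < m ^ 6 := by positivity
          calc pq (pq c n) m = (pq c n + m) * (pq c n + m) + m := rfl
            _ ≤ (2 * m ^ 3) * (2 * m ^ 3) + m ^ 6 :=
                Nat.add_le_add (Nat.mul_le_mul (by omega) (by omega)) e2
            _ = 5 * m ^ 6 := by ring
            _ < 36 * m ^ 6 := by omega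
            _ ≤ (m * m) * m ^ 6 := Nat.mul_le_mul_right _ (by nlinarith)
            _ = m ^ 8 := by ring
        have h12 : m ^ 3 < m ^ 8 := Nat.pow_lt_pow_right (by omega) (by norm_num)
        refine ⟨fun _ _ => False, n, by omega, h2, c, by omega, rfl, pq c n, by omega, rfl,
          pq (pq c n) m, h11, rfl, ?_, ?_⟩
        · have := right_le_pq (pq c n) m; omega
        · rw [← h2, key n h5]
          exact h4
      · rintro ⟨_, n, _, h2, d, _, rfl, x, _, rfl, z, _, rfl, _, h4⟩
        have h5 := hn2 n h2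
        rw [← h2, key n h5] at h4
        exact ⟨n, h2, by omega, h4⟩
  have h2 := root_isSpectrum h1 t
  convert h2 using 1
  ext n
  simp only [Set.mem_ofPred_eq]
  constructor
  · intro h3; exact ⟨n, rfl, h3⟩
  · rintro ⟨n', h3, h4⟩
    rwa [← hinj _ _ h3]

/-- one real number decides Asser's question -/
theorem one_real : ∃ x : ℝ, 0 ≤ x ∧ x ≤ 1 ∧ IsSpectrum (cut x) ∧
    ((∀ S, IsSpectrum S → IsSpectrum (posCompl S)) ↔ IsSpectrum (posCompl (cut x))) ∧
    ((∀ S, IsSpectrum S → IsSpectrum (posCompl S)) ↔ IsSpectrum (cut (1 - x))) := by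
  obtain ⟨x, h0, h1, h2, h3, h4⟩ := coding UU_isSpectrum
  have h5 : (∀ S, IsSpectrum S → IsSpectrum (posCompl S)) ↔ IsSpectrum (posCompl UU) :=
    ⟨fun h => h _ UU_isSpectrum, fun h S hS => universal hS h⟩
  exact ⟨x, h0, h1, h2, h5.trans h3, h5.trans h4⟩

end Pool.Agent.H69.Mt
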