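import Pool.Agent.H69.Mt.Uni

/-!
# Soundness of the truth evaluation
-/

set_option autoImplicit false

namespace Pool.Agent.H69.Mt

open Pool.Agent.H69.Sp

/-- the digits in base `n` -/
def dig (n a x : ℕ) : ℕ := a / n ^ x % n

theorem dig_split {n h d w l a x : ℕ} (hn : 0 < n) (hw : w = n ^ x) (ha : (h * n + d) * w + l = a)
    (hl : l < w) (hd : d < n) :
    dig n a x = d ∧ (∀ y, y < x → dig n a y = dig n l y) ∧
      (∀ y, x < y → dig n a y = h / n ^ (y - x - 1) % n) := by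
  subst hw
  subst ha
  have hpos : 0 < n ^ x := by positivity
  have h1 : ((h * n + d) * n ^ x + l) / n ^ x = h * n + d := by
    rw [Nat.add_div_of_dvd_right (Dvd.intro_left _ rfl), Nat.mul_div_cancel _ hpos,
      Nat.div_eq_of_lt hl, add_zero]
  refine ⟨?_, ?_, ?_⟩
  · unfold dig
    rw [h1, mul_comm, Nat.mul_add_mod, Nat.mod_eq_of_lt hd]
  · intro y hy
    unfold dig
    obtain ⟨m, hm⟩ : ∃ m, x = y + 1 + m := ⟨x - y - 1, by omega⟩
    rw [← Nat.mod_mul_right_div_self, ← Nat.mod_mul_right_div_self]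
    congr 1
    have h2 : (h * n + d) * n ^ x = n ^ y * n * ((h * n + d) * n ^ m) := by
      rw [hm, pow_add, pow_succ]; ring
    rw [h2, Nat.mul_add_mod]
  · intro y hy
    unfold dig
    obtain ⟨m, hm⟩ : ∃ m, y = x + 1 + m := ⟨y - x - 1, by omega⟩
    have h2 : n ^ y = n ^ x * n * n ^ m := by rw [hm, pow_add, pow_succ]
    rw [h2, ← Nat.div_div_eq_div_mul, ← Nat.div_div_eq_div_mul, h1]
    have h3 : (h * n + d) / n = h := by
      rw [Nat.add_div_of_dvd_right (Dvd.intro_left _ rfl), Nat.mul_div_cancel _ hn,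
        Nat.div_eq_of_lt hd, add_zero]
    rw [h3]
    congr 3
    omega

/-- codes of lists -/
def lc (n : ℕ) : List ℕ → ℕ
  | [] => 0
  | d :: l => lc n l * (n + 1) + d + 1

theorem lc_inj {n : ℕ} : ∀ {l l' : List ℕ}, (∀ d ∈ l, d < n) → (∀ d ∈ l', d < n) →
    lc n l = lc n l' → l = l' := by
  intro l
  induction l with
  | nil =>
    intro l' _ _ h
    cases l' with
    | nil => rfl
    | cons d l' => simp [lc] at h
  | cons d l ih =>
    intro l' h1 h2 h
    cases l' with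
    | nil => simp [lc] at h
    | cons d' l' =>
      have hd := h1 d (by simp)
      have hd' := h2 d' (by simp)
      rw [lc, lc] at h
      have h3 : (lc n l * (n + 1) + (d + 1)) % (n + 1) = (lc n l' * (n + 1) + (d' + 1)) % (n + 1) := by
        rw [← add_assoc, ← add_assoc, h]
      rw [mul_comm (lc n l), Nat.mul_add_mod, Nat.mod_eq_of_lt (by omega), mul_comm (lc n l'),
        Nat.mul_add_mod, Nat.mod_eq_of_lt (by omega)] at h3
      have h4 : d = d' := by omega
      subst h4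
      have h5 : lc n l * (n + 1) = lc n l' * (n + 1) := by omega
      have h6 : lc n l = lc n l' := Nat.eq_of_mul_eq_mul_right (by omega) h5
      rw [ih (fun d hd => h1 d (by simp [hd])) (fun d hd => h2 d (by simp [hd])) h6]

theorem lc_lt {n : ℕ} : ∀ {l : List ℕ}, (∀ d ∈ l, d < n) → lc n l < (n + 1) ^ l.length := by
  intro l
  induction l with
  | nil => intro _; simp [lc]
  | cons d l ih =>
    intro h
    have h1 := ih fun d hd => h d (by simp [hd])
    have h2 := h d (by simp)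
    rw [lc, List.length_cons, pow_succ]
    have h3 : (lc n l + 1) * (n + 1) ≤ (n + 1) ^ l.length * (n + 1) := Nat.mul_le_mul_right _ h1
    nlinarith

/-- nodes -/
abbrev Nd := ℕ × ℕ × ℕ

/-- the node `t` represents the list of variables -/
def LRep (L : List Nd) : List ℕ → ℕ → Prop
  | [], t => L[t]? = some (5, 0, 0)
  | x :: xs, t => ∃ u, L[t]? = some (6, x, u) ∧ LRep L xs u

/-- the node `t` represents the formula -/
def FRep (L : List Nd) : Fm → ℕ → Prop
  | .eq x y, t => L[t]? = some (0, x, y)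
  | .neg φ, t => ∃ u, L[t]? = some (1, u, 0) ∧ FRep L φ u
  | .and φ ψ, t => ∃ u w, L[t]? = some (2, u, w) ∧ FRep L φ u ∧ FRep L ψ w
  | .all x φ, t => ∃ u, L[t]? = some (3, x, u) ∧ FRep L φ u
  | .rel i xs, t => ∃ u, L[t]? = some (4, i, u) ∧ LRep L xs u

/-- the number `e` codes the table `L` -/
def Tab (L : List Nd) (e K B : ℕ) : Prop :=
  ∀ t k x y, L[t]? = some (k, x, y) →
    e / B ^ t % B = (k * K + x) * K + y ∧ k < K ∧ x < K ∧ y < K

section
variable {N : ℕ} {E : ℕ → List ℕ → Prop} {e K B n : ℕ}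

theorem J1.spec (h : J1 N E e B) : ∀ t, t < N → ∀ q, q < N → E 1 [t, q] → q = e / B ^ t := by
  intro t
  induction t with
  | zero =>
    intro ht q hq h1
    rcases h 0 ht q hq h1 with ⟨_, h2⟩ | ⟨t', _, q', _, d, _, z, _, h2, _⟩
    · simpa using h2
    · omega
  | succ t ih =>
    intro ht q hq h1
    rcases h _ ht q hq h1 with ⟨h2, _⟩ | ⟨t', h2, q', h3, d, h4, z, h5, h6, h7, h8, h9, h10⟩
    · omega
    · obtain rfl : t = t' := by omega
      have h11 := ih h2 q' h3 h7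
      rw [pow_succ, ← Nat.div_div_eq_div_mul, ← h11, ← h10, ← h9,
        Nat.add_div_of_dvd_right (Dvd.intro_left _ rfl), Nat.mul_div_cancel _ (by omega),
        Nat.div_eq_of_lt h8, add_zero]

theorem J2.spec (h : J2 N E K B) (h1 : J1 N E e B) {t k x y : ℕ} (ht : t < N) (hk : k < N)
    (hx : x < N) (hy : y < N) (hE : E 2 [t, k, x, y]) :
    e / B ^ t % B = (k * K + x) * K + y ∧ x < K ∧ y < K := by
  obtain ⟨q, hq, q1, _, z1, _, y1, _, y2, _, y3, _, d, _, a1, a2, a3, a4, a5, a6, a7, a8, a9, a10⟩ :=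
    h t ht k hk x hx y hy hE
  refine ⟨?_, a9, a10⟩
  rw [← h1.spec t ht q hq a1, ← a7, ← a2, mul_comm q1 B, Nat.mul_add_mod, Nat.mod_eq_of_lt a8, ← a6,
    ← a5, ← a4, ← a3]

theorem node_unique (h : J2 N E K B) (h1 : J1 N E e B) {L : List Nd} (hL : Tab L e K B)
    {t k x y k' x' y' : ℕ} (ht : t < N) (hk : k < N) (hx : x < N) (hy : y < N)
    (hE : E 2 [t, k, x, y]) (ht' : L[t]? = some (k', x', y')) : k = k' ∧ x = x' ∧ y = y' := by
  obtain ⟨a1, a2, a3⟩ := h.spec h1 ht hk hx hy hE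
  obtain ⟨b1, b2, b3, b4⟩ := hL t k' x' y' ht'
  rw [a1] at b1
  have c1 : y = y' := by
    have := congrArg (· % K) b1
    beta_reduce at this
    rwa [mul_comm _ K, Nat.mul_add_mod, Nat.mod_eq_of_lt a3, mul_comm _ K, Nat.mul_add_mod,
      Nat.mod_eq_of_lt b4] at this
  subst c1
  have c2 : k * K + x = k' * K + x' :=
    Nat.eq_of_mul_eq_mul_right (by omega : 0 < K) (Nat.add_right_cancel b1)
  have c3 : x = x' := by
    have := congrArg (· % K) c2
    beta_reduce at this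
    rwa [mul_comm _ K, Nat.mul_add_mod, Nat.mod_eq_of_lt a2, mul_comm _ K, Nat.mul_add_mod,
      Nat.mod_eq_of_lt b3] at this
  subst c3
  exact ⟨Nat.eq_of_mul_eq_mul_right (by omega : 0 < K) (Nat.add_right_cancel c2), rfl, rfl⟩

theorem J3.spec (h : J3 N E n) : ∀ x, x < N → ∀ w, w < N → E 3 [x, w] → w = n ^ x := by
  intro x
  induction x with
  | zero =>
    intro hx w hw h1
    rcases h 0 hx w hw h1 with ⟨_, h2⟩ | ⟨x', _, w', _, h2, _⟩
    · simpa using h2
    · omega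
  | succ x ih =>
    intro hx w hw h1
    rcases h _ hx w hw h1 with ⟨h2, _⟩ | ⟨x', h2, w', h3, h4, h5, h6⟩
    · omega
    · obtain rfl : x = x' := by omega
      rw [pow_succ, ← ih h2 w' h3 h5, h6]

theorem J4.spec (h : J4 N E n) (h3 : J3 N E n) {a x d : ℕ} (ha : a < N) (hx : x < N) (hd : d < N)
    (hE : E 4 [a, x, d]) : d = dig n a x := by
  obtain ⟨w, hw, q, _, z, _, y, _, u, _, l, _, a1, a2, a3, a4, a5, a6, a7⟩ := h a ha x hx d hd hE
  have h4 := h3.spec x hx w hw a1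
  have h5 : (q * n + d) * w + l = a := by rw [a2, a3, a4, a5]
  exact ((dig_split (by omega) h4 h5 a6 a7).1).symm

theorem J5.spec (h : J5 N E n) (h3 : J3 N E n) {a x c a' : ℕ} (ha : a < N) (hx : x < N)
    (hc : c < N) (ha' : a' < N) (hE : E 5 [a, x, c, a']) :
    (dig n a' = Function.update (dig n a) x c) ∧ c < n := by
  obtain ⟨w, hw, q, _, z, _, d, _, y, _, u, _, l, _, y', _, u', _, a1, a2, a3, a4, a5, a6, a7, a8,
    a9, a10, a11⟩ := h a ha x hx c hc a' ha' hE
  have h4 := h3.spec x hx w hw a1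
  have h5 : (q * n + d) * w + l = a := by rw [a2, a3, a4, a5]
  have h6 : (q * n + c) * w + l = a' := by rw [a2, a9, a10, a11]
  have s1 := dig_split (by omega) h4 h5 a6 a7
  have s2 := dig_split (by omega) h4 h6 a6 a8
  refine ⟨?_, a8⟩
  funext j
  rcases lt_trichotomy j x with hj | rfl | hj
  · rw [Function.update_of_ne (by omega), s2.2.1 j hj, s1.2.1 j hj]
  · rw [Function.update_self, s2.1]
  · rw [Function.update_of_ne (by omega), s2.2.2 j hj, s1.2.2 j hj]

theorem J6.spec (h : J6 N E n) (h1 : J1 N E e B) (h2 : J2 N E K B) (h3 : J3 N E n) (h4 : J4 N E n)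
    {L : List Nd} (hL : Tab L e K B) : ∀ (xs : List ℕ) (t : ℕ), LRep L xs t → t < N →
      ∀ a, a < N → ∀ c, c < N → E 6 [t, a, c] → c = lc n (xs.map (dig n a)) := by
  intro xs
  induction xs with
  | nil =>
    intro t hr ht a ha c hc hE
    rcases h t ht a ha c hc hE with ⟨k, hk, x, hx, y, hy, b1, b2, b3⟩ |
      ⟨k, hk, x, hx, u, hu, d, hd, c', hc', m, hm, z, hz, y, hy, b1, b2, _⟩
    · exact b3
    · have := (node_unique h2 h1 hL ht hk hx hu b2 hr).1
      omega
  | cons x xs ih =>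
    intro t hr ht a ha c hc hE
    obtain ⟨u, hr1, hr2⟩ := hr
    rcases h t ht a ha c hc hE with ⟨k, hk, x', hx, y, hy, b1, b2, b3⟩ |
      ⟨k, hk, x', hx, u', hu, d, hd, c', hc', m, hm, z, hz, y, hy, b1, b2, b3, b4, b5, b6, b7, b8⟩
    · have := (node_unique h2 h1 hL ht hk hx hy b2 hr1).1
      omega
    · obtain ⟨_, rfl, rfl⟩ := node_unique h2 h1 hL ht hk hx hu b2 hr1
      rw [List.map_cons, lc, ← ih u' hr2 hu a ha c' hc' b4, ← h4.spec h3 ha hx hd b3, b8, ← b7, ← b6,
        b5]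

theorem J7.spec (h : J7 N E n) (h1 : J1 N E e B) (h2 : J2 N E K B) (h3 : J3 N E n) (h4 : J4 N E n)
    (h5 : J5 N E n) (h6 : J6 N E n) {L : List Nd} (hL : Tab L e K B) (hnN : n < N) :
    ∀ (ψ : Fm) (t : ℕ), FRep L ψ t → t < N → ∀ a, a < N → ∀ b, b < N → E 7 [t, a, b] →
      (b = 1 ∧ Sat (· < n) (fun i l => E 0 [i, lc n l]) ψ (dig n a)) ∨
      (b = 0 ∧ ¬ Sat (· < n) (fun i l => E 0 [i, lc n l]) ψ (dig n a)) := by
  intro ψ
  induction ψ with
  | eq x y =>
    intro t hr ht a ha b hb hE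
    rcases h t ht a ha b hb hE with hh | hh | hh | hh | hh
    · obtain ⟨k, hk, x', hx, y', hy, d, hd, d', hd', b1, b2, b3, b4, b5⟩ := hh
      obtain ⟨_, rfl, rfl⟩ := node_unique h2 h1 hL ht hk hx hy b2 hr
      rw [sat_eq, ← h4.spec h3 ha hx hd b3, ← h4.spec h3 ha hy hd' b4]
      exact b5
    · obtain ⟨k, hk, u, hu, z, hz, b', hb', b1, b2, _⟩ := hh
      have := (node_unique h2 h1 hL ht hk hu hz b2 hr).1
      omega
    · obtain ⟨k, hk, u, hu, w, hw, b1, b2, _⟩ := hh
      have := (node_unique h2 h1 hL ht hk hu hw b2 hr).1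
      omega
    · obtain ⟨k, hk, u, hu, w, hw, b1, b2, _⟩ := hh
      have := (node_unique h2 h1 hL ht hk hu hw b2 hr).1
      omega
    · obtain ⟨k, hk, u, hu, w, hw, c, hc, b1, b2, _⟩ := hh
      have := (node_unique h2 h1 hL ht hk hu hw b2 hr).1
      omega
  | neg φ ih =>
    intro t hr ht a ha b hb hE
    obtain ⟨u, hr1, hr2⟩ := hr
    rcases h t ht a ha b hb hE with hh | hh | hh | hh | hh
    · obtain ⟨k, hk, x', hx, y', hy, d, hd, d', hd', b1, b2, _⟩ := hh
      have := (node_unique h2 h1 hL ht hk hx hy b2 hr1).1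
      omega
    · obtain ⟨k, hk, u', hu, z, hz, b', hb', b1, b2, b3, b4⟩ := hh
      obtain ⟨_, rfl, _⟩ := node_unique h2 h1 hL ht hk hu hz b2 hr1
      have := ih u' hr2 hu a ha b' hb' b3
      rw [sat_neg]
      rcases b4 with ⟨c1, c2⟩ | ⟨c1, c2⟩
      · left
        refine ⟨c1, ?_⟩
        rcases this with ⟨c3, _⟩ | ⟨_, c3⟩
        · omega
        · exact c3
      · right
        refine ⟨c1, ?_⟩
        rcases this with ⟨_, c3⟩ | ⟨c3, _⟩
        · exact fun hc => hc c3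
        · omega
    · obtain ⟨k, hk, u, hu, w, hw, b1, b2, _⟩ := hh
      have := (node_unique h2 h1 hL ht hk hu hw b2 hr1).1
      omega
    · obtain ⟨k, hk, u, hu, w, hw, b1, b2, _⟩ := hh
      have := (node_unique h2 h1 hL ht hk hu hw b2 hr1).1
      omega
    · obtain ⟨k, hk, u, hu, w, hw, c, hc, b1, b2, _⟩ := hh
      have := (node_unique h2 h1 hL ht hk hu hw b2 hr1).1
      omega
  | and φ ψ ih1 ih2 =>
    intro t hr ht a ha b hb hE
    obtain ⟨u, w, hr1, hr2, hr3⟩ := hr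
    rcases h t ht a ha b hb hE with hh | hh | hh | hh | hh
    · obtain ⟨k, hk, x', hx, y', hy, d, hd, d', hd', b1, b2, _⟩ := hh
      have := (node_unique h2 h1 hL ht hk hx hy b2 hr1).1
      omega
    · obtain ⟨k, hk, u', hu, z, hz, b', hb', b1, b2, b3, b4⟩ := hh
      have := (node_unique h2 h1 hL ht hk hu hz b2 hr1).1
      omega
    · obtain ⟨k, hk, u', hu, w', hw, b1, b2, b3⟩ := hh
      obtain ⟨_, rfl, rfl⟩ := node_unique h2 h1 hL ht hk hu hw b2 hr1
      rw [sat_and]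
      rcases b3 with ⟨rfl, c1, c2⟩ | ⟨rfl, c1⟩
      · left
        refine ⟨rfl, ?_, ?_⟩
        · rcases ih1 _ hr2 hu a ha 1 hb c1 with ⟨_, c3⟩ | ⟨c3, _⟩
          · exact c3
          · omega
        · rcases ih2 _ hr3 hw a ha 1 hb c2 with ⟨_, c3⟩ | ⟨c3, _⟩
          · exact c3
          · omega
      · right
        refine ⟨rfl, fun hc => ?_⟩
        rcases c1 with c1 | c1
        · rcases ih1 _ hr2 hu a ha 0 hb c1 with ⟨c3, _⟩ | ⟨_, c3⟩
          · omega
          · exact c3 hc.1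
        · rcases ih2 _ hr3 hw a ha 0 hb c1 with ⟨c3, _⟩ | ⟨_, c3⟩
          · omega
          · exact c3 hc.2
    · obtain ⟨k, hk, u, hu, w, hw, b1, b2, _⟩ := hh
      have := (node_unique h2 h1 hL ht hk hu hw b2 hr1).1
      omega
    · obtain ⟨k, hk, u, hu, w, hw, c, hc, b1, b2, _⟩ := hh
      have := (node_unique h2 h1 hL ht hk hu hw b2 hr1).1
      omega
  | all x φ ih =>
    intro t hr ht a ha b hb hE
    obtain ⟨u, hr1, hr2⟩ := hr
    rcases h t ht a ha b hb hE with hh | hh | hh | hh | hh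
    · obtain ⟨k, hk, x', hx, y', hy, d, hd, d', hd', b1, b2, _⟩ := hh
      have := (node_unique h2 h1 hL ht hk hx hy b2 hr1).1
      omega
    · obtain ⟨k, hk, u', hu, z, hz, b', hb', b1, b2, b3, b4⟩ := hh
      have := (node_unique h2 h1 hL ht hk hu hz b2 hr1).1
      omega
    · obtain ⟨k, hk, u', hu, w', hw, b1, b2, b3⟩ := hh
      have := (node_unique h2 h1 hL ht hk hu hw b2 hr1).1
      omega
    · obtain ⟨k, hk, x', hx, u', hu, b1, b2, b3⟩ := hh
      obtain ⟨_, rfl, rfl⟩ := node_unique h2 h1 hL ht hk hx hu b2 hr1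
      rw [sat_all]
      rcases b3 with ⟨rfl, c1⟩ | ⟨rfl, c, hc, c1, a', ha', c2, c3⟩
      · left
        refine ⟨rfl, fun c hc => ?_⟩
        obtain ⟨a', ha', c2, c3⟩ := c1 c (by omega) hc
        rw [← (h5.spec h3 ha hx (by omega) ha' c2).1]
        rcases ih _ hr2 hu a' ha' 1 hb c3 with ⟨_, c4⟩ | ⟨c4, _⟩
        · exact c4
        · omega
      · right
        refine ⟨rfl, fun hall => ?_⟩
        have c5 := hall c c1
        rw [← (h5.spec h3 ha hx hc ha' c2).1] at c5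
        rcases ih _ hr2 hu a' ha' 0 hb c3 with ⟨c4, _⟩ | ⟨_, c4⟩
        · omega
        · exact c4 c5
    · obtain ⟨k, hk, u, hu, w, hw, c, hc, b1, b2, _⟩ := hh
      have := (node_unique h2 h1 hL ht hk hu hw b2 hr1).1
      omega
  | rel i xs =>
    intro t hr ht a ha b hb hE
    obtain ⟨u, hr1, hr2⟩ := hr
    rcases h t ht a ha b hb hE with hh | hh | hh | hh | hh
    · obtain ⟨k, hk, x', hx, y', hy, d, hd, d', hd', b1, b2, _⟩ := hh
      have := (node_unique h2 h1 hL ht hk hx hy b2 hr1).1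
      omega
    · obtain ⟨k, hk, u', hu, z, hz, b', hb', b1, b2, b3, b4⟩ := hh
      have := (node_unique h2 h1 hL ht hk hu hz b2 hr1).1
      omega
    · obtain ⟨k, hk, u', hu, w', hw, b1, b2, b3⟩ := hh
      have := (node_unique h2 h1 hL ht hk hu hw b2 hr1).1
      omega
    · obtain ⟨k, hk, u, hu, w, hw, b1, b2, _⟩ := hh
      have := (node_unique h2 h1 hL ht hk hu hw b2 hr1).1
      omega
    · obtain ⟨k, hk, i', hi, u', hu, c, hc, b1, b2, b3, b4⟩ := hh
      obtain ⟨_, rfl, rfl⟩ := node_unique h2 h1 hL ht hk hi hu b2 hr1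
      have h7 := h6.spec h1 h2 h3 h4 hL xs u' hr2 hu a ha c hc b3
      rw [sat_rel, ← h7]
      exact b4

end

end Pool.Agent.H69.Mt
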